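import Pool.Agent.H1.RO.Defs

/-!
# Module Chg: change of variables

STATEMENT. `G` injective and holomorphic on the open set `U ⊇ A`, `A` measurable: `∫⁻ y in A, ‖G'(y)‖^2 F(G y) = ∫⁻ x in G '' A, F x`.

PROOF. Mathlib `lintegral_image_eq_lintegral_abs_det_fderiv_mul` (real derivative) with the Jacobian `|det| = ‖G'‖^2`: `abs_det_smulRight` in Pool/Agent/H61/TT/Area.lean (copy the
lemma; it is Mathlib only) and `HasDerivAt.hasFDerivAt` restricted to `ℝ` (compare the proof of `area_piece` there).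
-/

set_option autoImplicit false

open MeasureTheory Metric Set Filter Topology

namespace Pool.Agent.H1.RO

private theorem abs_det_smulRight (c : ℂ) :
    |((ContinuousLinearMap.smulRight (1 : ℂ →L[ℂ] ℂ) c).restrictScalars ℝ).det| = ‖c‖ ^ 2 := by
  have h1 : ((ContinuousLinearMap.smulRight (1 : ℂ →L[ℂ] ℂ) c).restrictScalars ℝ).det =
      LinearMap.det (((ContinuousLinearMap.smulRight (1 : ℂ →L[ℂ] ℂ) c : ℂ →L[ℂ] ℂ) :
        ℂ →ₗ[ℂ] ℂ).restrictScalars ℝ) := rfl
  rw [h1, LinearMap.det_restrictScalars, Algebra.norm_complex_eq]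
  show |Complex.normSq _| = _
  rw [Complex.normSq_eq_norm_sq, abs_of_nonneg (by positivity)]
  congr 2
  simp

theorem chg {U A : Set ℂ} (hU : IsOpen U) (hA : MeasurableSet A) (hAU : A ⊆ U) {G : ℂ → ℂ}
    (hG : DifferentiableOn ℂ G U) (hi : InjOn G A) (F : ℂ → ENNReal) :
    ∫⁻ x in G '' A, F x = ∫⁻ y in A, ENNReal.ofReal (‖deriv G y‖ ^ 2) * F (G y) := by
  have hd : ∀ y ∈ A, HasDerivAt G (deriv G y) y := fun y hy =>
    ((hG y (hAU hy)).differentiableAt (hU.mem_nhds (hAU hy))).hasDerivAt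
  rw [lintegral_image_eq_lintegral_abs_det_fderiv_mul volume hA
    (f' := fun y => (ContinuousLinearMap.smulRight (1 : ℂ →L[ℂ] ℂ) (deriv G y)).restrictScalars ℝ)
    (fun y hy => ((hd y hy).hasFDerivAt.restrictScalars ℝ).hasFDerivWithinAt) hi F]
  refine setLIntegral_congr_fun hA ?_
  intro y _
  simp only []
  rw [abs_det_smulRight]

end Pool.Agent.H1.RO
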