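import Pool.Agent.H1.RO.Defs

/-!
# Module Der: derivatives of a return system

STATEMENT. For a return system, `y ∈ ball c (4 s)`: `∑ i, ‖(g i)'(y)‖^2` converges and is at most `4096 KK^2`.

PROOF. Write `D i = ‖deriv (g i) c‖`. (1) `distort` (H80/AJ/Distort; `R = 8 s`, `closedBall c (8 s / 2)`): `‖deriv (g i) y‖ ≤ KK * D i` for
`y ∈ ball c (4 s)`. (2) `univ_cover` (H80/AJ/Cover) on `ball c (s / 2)` (restrict `dif`, `inj`): `ball (g i c) (s / 2 * D i / 16) ⊆ g i '' ball c (s / 2) ⊆ g i '' A`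
(`bA`). So the balls `V i = ball (g i c) (s * D i / 32)` are pairwise disjoint (`dis`) and contained in `A ⊆ ball c (2 s)` (`mA`, `As`).
(3) For every finite set `F` of indices: `∑ i ∈ F, volume (V i) = volume (⋃ i ∈ F, V i) ≤ volume (ball c (2 s))` (`measure_biUnion_finset`,
measurable open sets), with `Complex.volume_ball`: `∑ i ∈ F, (s D i / 32)^2 π ≤ (2 s)^2 π`, so `∑ i ∈ F, D i ^ 2 ≤ 4096`. (4) `summable_of_sum_le`
(nonnegative terms, all finite sums bounded) for `‖deriv (g i) y‖^2 ≤ KK^2 * D i ^ 2`, and `Real.tsum_le_of_sum_le` or `Summable.tsum_le_of_sum_le`.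
-/

set_option autoImplicit false

open MeasureTheory Metric Set Filter Topology

namespace Pool.Agent.H1.RO

open Pool.Agent.H80.AJ

variable {ι : Type} {c : ℂ} {s : ℝ} {A : Set ℂ} {g : ι → ℂ → ℂ}

theorem der_sum (h : RSys ι c s A g) {y : ℂ} (hy : y ∈ ball c (4 * s)) :
    (Summable fun i => ‖deriv (g i) y‖ ^ 2) ∧ ∑' i, ‖deriv (g i) y‖ ^ 2 ≤ 4096 * KK ^ 2 := by
  have hs := h.s0
  have hKK := KK_pos
  have h1 : ∀ i, ‖deriv (g i) y‖ ≤ KK * ‖deriv (g i) c‖ := by
    intro i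
    refine distort (R := 8 * s) (by positivity) (h.dif i) (h.inj i) ?_ ?_
    · rw [mem_closedBall]
      have := mem_ball.1 hy
      linarith
    · exact mem_closedBall_self (by positivity)
  have hsub : ball c (s / 2) ⊆ ball c (8 * s) := ball_subset_ball (by linarith)
  have h2 : ∀ i, ball (g i c) (s / 2 * ‖deriv (g i) c‖ / 16) ⊆ g i '' A := fun i =>
    (univ_cover (by positivity) ((h.dif i).mono hsub) ((h.inj i).mono hsub)).trans
      (image_mono h.bA)
  have hvol : ∀ (a : ℂ) (r : ℝ), 0 ≤ r →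
      volume (ball a r) = ENNReal.ofReal (r ^ 2 * Real.pi) := by
    intro a r hr
    rw [Complex.volume_ball, ENNReal.ofReal_mul (by positivity), ENNReal.ofReal_pow hr]
    congr 1
    rw [← NNReal.coe_real_pi, ENNReal.ofReal_coe_nnreal]
  have h3 : ∀ F : Finset ι, ∑ i ∈ F, ‖deriv (g i) c‖ ^ 2 ≤ 4096 := by
    intro F
    have hdisj : (F : Set ι).PairwiseDisjoint
        fun i => ball (g i c) (s / 2 * ‖deriv (g i) c‖ / 16) := by
      intro i _ j _ hij
      exact (h.dis hij).mono (h2 i) (h2 j)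
    have h4 := measure_biUnion_finset (μ := volume) hdisj (fun i _ => measurableSet_ball)
    have h5 : (⋃ i ∈ F, ball (g i c) (s / 2 * ‖deriv (g i) c‖ / 16)) ⊆ ball c (2 * s) := by
      refine iUnion₂_subset fun i _ => (h2 i).trans ?_
      exact (h.mA i).image_subset.trans h.As
    have h6 := measure_mono (μ := volume) h5
    rw [h4, hvol _ _ (by positivity)] at h6
    have h7 : ∑ i ∈ F, volume (ball (g i c) (s / 2 * ‖deriv (g i) c‖ / 16)) =
        ENNReal.ofReal (∑ i ∈ F, (s / 2 * ‖deriv (g i) c‖ / 16) ^ 2 * Real.pi) := by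
      rw [ENNReal.ofReal_sum_of_nonneg fun i _ => by positivity]
      exact Finset.sum_congr rfl fun i _ => hvol _ _ (by positivity)
    rw [h7, ENNReal.ofReal_le_ofReal_iff (by positivity), ← Finset.sum_mul] at h6
    have h8 := le_of_mul_le_mul_right h6 Real.pi_pos
    have h9 : ∑ i ∈ F, (s / 2 * ‖deriv (g i) c‖ / 16) ^ 2 =
        s ^ 2 / 1024 * ∑ i ∈ F, ‖deriv (g i) c‖ ^ 2 := by
      rw [Finset.mul_sum]
      exact Finset.sum_congr rfl fun i _ => by ring
    rw [h9] at h8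
    have hs2 : 0 < s ^ 2 := by positivity
    nlinarith
  have h4 : ∀ F : Finset ι, ∑ i ∈ F, ‖deriv (g i) y‖ ^ 2 ≤ 4096 * KK ^ 2 := by
    intro F
    calc ∑ i ∈ F, ‖deriv (g i) y‖ ^ 2 ≤ ∑ i ∈ F, KK ^ 2 * ‖deriv (g i) c‖ ^ 2 := by
          refine Finset.sum_le_sum fun i _ => ?_
          rw [← mul_pow]
          exact pow_le_pow_left₀ (norm_nonneg _) (h1 i) 2
      _ = KK ^ 2 * ∑ i ∈ F, ‖deriv (g i) c‖ ^ 2 := by rw [Finset.mul_sum]
      _ ≤ KK ^ 2 * 4096 := by
          have := h3 F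
          gcongr
      _ = 4096 * KK ^ 2 := mul_comm _ _
  have h5 : Summable fun i => ‖deriv (g i) y‖ ^ 2 :=
    summable_of_sum_le (fun i => by positivity) h4
  exact ⟨h5, h5.tsum_le_of_sum_le h4⟩

end Pool.Agent.H1.RO
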