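import Mathlib
import Pool.Agent.H80.AJ.Cover
import Pool.Agent.H80.AJ.Distort

/-!
# THEOREM P, stage 2: return systems and the return operator (definitions)

`RSys ι c s A g`: a family of injective holomorphic maps `g i` of `ball c (8 s)` into `ball c (2 s)` which map `A` into pairwise disjoint
subsets of `A`, `ball c (s / 2) ⊆ A ⊆ ball c (2 s)`, `A` open and connected. (In the application: `A` is a nice neighbourhood of the
critical point `c`, the `g i` are the branches of the first return map.)
`LL g φ y = ∑ i, (g i)'(y)^2 φ (g i y)`: the return operator on quadratic differentials.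
`wm g n w`: the composition of the `n` maps `g (w 0)`, `g (w 1)`, ..., `g (w (n - 1))` (first `g (w 0)`).
-/

set_option autoImplicit false

open MeasureTheory Metric Set Filter Topology

namespace Pool.Agent.H1.RO

/-- a return system -/
structure RSys (ι : Type) (c : ℂ) (s : ℝ) (A : Set ℂ) (g : ι → ℂ → ℂ) : Prop where
  s0 : 0 < s
  Ao : IsOpen A
  Ac : IsPreconnected A
  bA : ball c (s / 2) ⊆ A
  As : A ⊆ ball c (2 * s)
  dif : ∀ i, DifferentiableOn ℂ (g i) (ball c (8 * s))
  inj : ∀ i, InjOn (g i) (ball c (8 * s))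
  big : ∀ i, MapsTo (g i) (ball c (8 * s)) (ball c (2 * s))
  mA : ∀ i, MapsTo (g i) A A
  dis : Pairwise fun i j => Disjoint (g i '' A) (g j '' A)

/-- the return operator -/
noncomputable def LL {ι : Type} (g : ι → ℂ → ℂ) (φ : ℂ → ℂ) (y : ℂ) : ℂ :=
  ∑' i, deriv (g i) y ^ 2 * φ (g i y)

/-- compositions of `n` maps of the family -/
def wm {ι : Type} (g : ι → ℂ → ℂ) : (n : ℕ) → (Fin n → ι) → ℂ → ℂ
  | 0, _ => fun y => y
  | n + 1, w => fun y => wm g n (fun i => w i.succ) (g (w 0) y)

end Pool.Agent.H1.RO
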