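import Pool.Agent.H1.RO.Defs

/-!
# Module Wor: words

STATEMENT. The compositions of `n + 1` maps of a return system form a return system (`wor_sys`). Chain rule (`wor_der`).

PROOF. Induction on `n`. `wm g 1 w = g (w 0)` (up to `rfl`/`funext`); for `n = 0` transport `h` along this: for `dis` two different words
`w ≠ w' : Fin 1 → ι` have `w 0 ≠ w' 0`. Step: `wm g (n + 2) w = wm g (n + 1) (tail) ∘ g (w 0)`: `dif`: `DifferentiableOn.comp` with `big`
(`ball c (2 s) ⊆ ball c (8 s)`); `inj`: `InjOn.comp`; `big`, `mA`: composition of `MapsTo`. `dis`: let `w ≠ w'`. The image of `A` under `wm g (n + 2) w` is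
`wm g (n + 1) tail '' (g (w 0) '' A) ⊆ wm g (n + 1) tail '' A`. If the tails are different: disjoint by induction. If the tails are equal: `w 0 ≠ w' 0`
(otherwise `w = w'` by `Fin.cases`), and the images of the disjoint subsets `g (w 0) '' A`, `g (w' 0) '' A` of `A ⊆ ball c (8 s)` under the injective map
`wm g (n + 1) tail` are disjoint (`InjOn` on `ball c (8 s)`). `wor_der`: `HasDerivAt.comp` at `y` (`g (w 0) y ∈ ball c (2 s)`, open set, `DifferentiableOn.differentiableAt`);
for `n = 0` the map `wm g 0 _` is the identity.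
-/

set_option autoImplicit false

open MeasureTheory Metric Set Filter Topology

namespace Pool.Agent.H1.RO

variable {ι : Type} {c : ℂ} {s : ℝ} {A : Set ℂ} {g : ι → ℂ → ℂ}

private theorem wor_aux (h : RSys ι c s A g) (n : ℕ) :
    (∀ w, DifferentiableOn ℂ (wm g n w) (ball c (8 * s))) ∧
      (∀ w, InjOn (wm g n w) (ball c (8 * s))) ∧
      (∀ w, MapsTo (wm g n w) (ball c (2 * s)) (ball c (2 * s))) ∧
      (∀ w, MapsTo (wm g n w) A A) ∧
      (Pairwise fun w w' => Disjoint (wm g n w '' A) (wm g n w' '' A)) := by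
  have hs := h.s0
  have hsub : ball c (2 * s) ⊆ ball c (8 * s) := ball_subset_ball (by linarith)
  have hA8 : A ⊆ ball c (8 * s) := h.As.trans hsub
  induction n with
  | zero =>
    refine ⟨fun w => differentiableOn_id, fun w => injOn_id _, fun w => mapsTo_id _,
      fun w => mapsTo_id _, ?_⟩
    intro w w' hw
    exact absurd (Subsingleton.elim _ _) hw
  | succ n ih =>
    obtain ⟨h1, h2, h3, h4, h5⟩ := ih
    have hg8 : ∀ i, MapsTo (g i) (ball c (8 * s)) (ball c (8 * s)) := fun i =>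
      (h.big i).mono_right hsub
    refine ⟨fun w => (h1 _).comp (h.dif _) (hg8 _), fun w => (h2 _).comp (h.inj _) (hg8 _),
      fun w => (h3 _).comp ((h.big _).mono_left hsub), fun w => (h4 _).comp (h.mA _), ?_⟩
    intro w w' hw
    by_cases ht : (fun i : Fin n => w i.succ) = fun i => w' i.succ
    · have h0 : w 0 ≠ w' 0 := by
        intro h0
        apply hw
        funext i
        exact Fin.cases h0 (fun j => congrFun ht j) i
      have hd : Disjoint (g (w 0) '' A) (g (w' 0) '' A) := h.dis h0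
      rw [Set.disjoint_left] at hd ⊢
      rintro _ ⟨a, ha, rfl⟩ ⟨b, hb, hab⟩
      change wm g n (fun i => w' i.succ) (g (w' 0) b) =
        wm g n (fun i => w i.succ) (g (w 0) a) at hab
      rw [← ht] at hab
      have h6 := h2 _ (hA8 (h.mA _ hb)) (hA8 (h.mA _ ha)) hab
      exact hd ⟨a, ha, rfl⟩ ⟨b, hb, h6⟩
    · have hd : Disjoint (wm g n (fun i => w i.succ) '' A) (wm g n (fun i => w' i.succ) '' A) :=
        h5 ht
      rw [Set.disjoint_left] at hd ⊢
      rintro _ ⟨a, ha, rfl⟩ ⟨b, hb, hab⟩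
      exact hd ⟨g (w 0) a, h.mA _ ha, rfl⟩ ⟨g (w' 0) b, h.mA _ hb, hab⟩

theorem wor_sys (h : RSys ι c s A g) (n : ℕ) : RSys (Fin (n + 1) → ι) c s A (wm g (n + 1)) := by
  obtain ⟨h1, h2, h3, h4, h5⟩ := wor_aux h (n + 1)
  obtain ⟨-, -, h3', -, -⟩ := wor_aux h n
  exact ⟨h.s0, h.Ao, h.Ac, h.bA, h.As, h1, h2, fun w => (h3' _).comp (h.big _), h4, h5⟩

theorem wor_der (h : RSys ι c s A g) (n : ℕ) (w : Fin (n + 1) → ι) {y : ℂ} (hy : y ∈ ball c (8 * s)) :
    deriv (wm g (n + 1) w) y = deriv (wm g n (fun i => w i.succ)) (g (w 0) y) * deriv (g (w 0)) y := by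
  have hs := h.s0
  have hsub : ball c (2 * s) ⊆ ball c (8 * s) := ball_subset_ball (by linarith)
  obtain ⟨h1, -, -, -, -⟩ := wor_aux h n
  have h6 : DifferentiableAt ℂ (wm g n (fun i => w i.succ)) (g (w 0) y) :=
    (h1 _).differentiableAt (isOpen_ball.mem_nhds (hsub (h.big _ hy)))
  have h7 : DifferentiableAt ℂ (g (w 0)) y := (h.dif _).differentiableAt (isOpen_ball.mem_nhds hy)
  exact deriv_comp y h6 h7

end Pool.Agent.H1.RO
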