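import Pool.Agent.H1.RO.Bdd
import Pool.Agent.H1.RO.Wor
import Pool.Agent.H1.RO.Chg

/-!
# Module Alg: equality in the triangle inequality

STATEMENT. `LL g φ = μ φ` on `ball c (4 s)`, `|μ| = 1`, `φ` holomorphic, bounded, not `0`. Then for every `i` there is a constant `ρ > 0` with
`(g i)'^2 φ ∘ g i = ρ μ φ` on `A`.

PROOF. `F i y = deriv (g i) y ^ 2 * φ (g i y)`, continuous on `A` (differentiable on `ball c (4 s) ⊇ A`). (1) `∑ i, ∫⁻ A, ‖F i‖ₑ = ∑ i, ∫⁻ (g i '' A), ‖φ‖ₑ` (`chg`, `‖F i y‖ = ‖deriv (g i) y‖^2 ‖φ (g i y)‖`)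
`= ∫⁻ (⋃ i, g i '' A), ‖φ‖ₑ ≤ ∫⁻ A, ‖φ‖ₑ` (`dis`, `mA`; the `g i '' A` are measurable: open by the open mapping theorem or `MeasurableSet.image_of_continuousOn_injOn`; `lintegral_iUnion`, `ι` countable).
(2) `∫⁻ A, ‖φ‖ₑ = ∫⁻ A, ‖∑ F i‖ₑ ≤ ∫⁻ A, ∑ ‖F i‖ₑ = ∑ ∫⁻ A, ‖F i‖ₑ`; finite since `φ` is bounded and `A ⊆ ball c (2 s)`. So `∫⁻ A, (∑ ‖F i‖ₑ - ‖∑ F i‖ₑ) = 0` and `∑ ‖F i y‖ = ‖∑ F i y‖ = ‖φ y‖` for almost all `y ∈ A`
(`bdd_sum`: absolute convergence). (3) For such `y` and each `j`: `‖φ y‖ = ‖F j y + ∑_(i ≠ j) F i y‖ ≤ ‖F j y‖ + ‖∑_(i ≠ j) F i y‖ ≤ ∑ ‖F i y‖ = ‖φ y‖`, so `‖F j y + R‖ = ‖F j y‖ + ‖R‖`, `R = μ φ y - F j y`: `F j y` is a nonnegative real multiple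
of `μ φ y` (`sameRay_iff_norm_add`, `Complex.sameRay_iff` or `SameRay`): `F j y * conj (μ φ y)` is real and `≥ 0`. Both sides are continuous in `y`, and an almost everywhere true closed
condition on the open set `A` holds everywhere on `A` (`Measure.IsOpenPosMeasure`; a set of full measure in `A` is dense in `A`). (4) `φ` is not identically `0` on `A`: otherwise it is `0` on the connected `ball c (4 s)` (identity theorem,
`AnalyticOnNhd.eqOn_zero_of_preconnected_of_eventuallyEq_zero`), against `hne`. Let `y0 ∈ A`, `φ y0 ≠ 0`. `H = F j / (μ φ)` is holomorphic near `y0` with real values `≥ 0`: constant near `y0` (open mapping theorem: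
`AnalyticAt.eventually_constant_or_nhds_le_map_nhds`; a neighbourhood of a real number contains non real numbers). So `F j = ρ μ φ` near `y0`, and on `A` by the identity theorem (`Ac`). `ρ ≥ 0`; if `ρ = 0` then `φ ∘ g j = 0` on `A` where
`deriv (g j) ≠ 0` (injective), so `φ = 0` on the nonempty open set `g j '' A`: contradiction as in (4).
-/

set_option autoImplicit false

open MeasureTheory Metric Set Filter Topology

namespace Pool.Agent.H1.RO

open Pool.Agent.H80.AJ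

variable {ι : Type} {c : ℂ} {s : ℝ} {A : Set ℂ} {g : ι → ℂ → ℂ}

/-- identity theorem for the eigenfunction -/
private theorem ident {c : ℂ} {s : ℝ} (hs : 0 < s) {φ : ℂ → ℂ}
    (hφ : DifferentiableOn ℂ φ (ball c (4 * s))) (hne : ∃ z ∈ ball c (2 * s), φ z ≠ 0) {p : ℂ}
    (hp : p ∈ ball c (4 * s)) (h0 : ∀ᶠ u in 𝓝 p, φ u = 0) : False := by
  obtain ⟨z, hz, hz0⟩ := hne
  have h1 : AnalyticOnNhd ℂ φ (ball c (4 * s)) := hφ.analyticOnNhd isOpen_ball
  have h2 := h1.eqOn_zero_of_preconnected_of_eventuallyEq_zero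
    (convex_ball c (4 * s)).isPreconnected hp h0
  exact hz0 (h2 (ball_subset_ball (by linarith) hz))

/-- almost everywhere equality of the norms -/
private theorem ae_norm [Countable ι] (h : RSys ι c s A g) {μ : ℂ} {φ : ℂ → ℂ} {M : ℝ}
    (hμ : ‖μ‖ = 1) (hφ : DifferentiableOn ℂ φ (ball c (4 * s)))
    (hM : ∀ z ∈ ball c (4 * s), ‖φ z‖ ≤ M) (he : ∀ z ∈ ball c (4 * s), LL g φ z = μ * φ z) :
    ∀ᵐ y ∂(volume.restrict A), ‖φ y‖ₑ = ∑' i, ‖deriv (g i) y ^ 2 * φ (g i y)‖ₑ := by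
  have hs := h.s0
  have h24 : ball c (2 * s) ⊆ ball c (4 * s) := ball_subset_ball (by linarith)
  have h48 : ball c (4 * s) ⊆ ball c (8 * s) := ball_subset_ball (by linarith)
  have hA4 : A ⊆ ball c (4 * s) := h.As.trans h24
  have hA8 : A ⊆ ball c (8 * s) := hA4.trans h48
  have hAm : MeasurableSet A := h.Ao.measurableSet
  have hFd : ∀ i, DifferentiableOn ℂ (fun y => deriv (g i) y ^ 2 * φ (g i y))
      (ball c (8 * s)) := by
    intro i
    refine DifferentiableOn.mul (DifferentiableOn.pow ((h.dif i).deriv isOpen_ball) 2) ?_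
    exact (hφ.mono h24).comp (h.dif i) (h.big i)
  have hFm : ∀ i, AEMeasurable (fun y => ‖deriv (g i) y ^ 2 * φ (g i y)‖ₑ)
      (volume.restrict A) := fun i =>
    (((hFd i).mono hA8).continuousOn.aemeasurable hAm).enorm
  have hVm : ∀ i, MeasurableSet (g i '' A) := fun i =>
    hAm.image_of_continuousOn_injOn ((h.dif i).mono hA8).continuousOn ((h.inj i).mono hA8)
  have h1 : ∀ i, ∫⁻ y in A, ‖deriv (g i) y ^ 2 * φ (g i y)‖ₑ = ∫⁻ x in g i '' A, ‖φ x‖ₑ := by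
    intro i
    rw [chg isOpen_ball hAm hA8 (h.dif i) ((h.inj i).mono hA8)]
    refine lintegral_congr fun y => ?_
    rw [enorm_mul, ← ofReal_norm, norm_pow]
  have h2 : ∫⁻ y in A, ∑' i, ‖deriv (g i) y ^ 2 * φ (g i y)‖ₑ ≤ ∫⁻ y in A, ‖φ y‖ₑ := by
    rw [lintegral_tsum hFm]
    calc ∑' i, ∫⁻ y in A, ‖deriv (g i) y ^ 2 * φ (g i y)‖ₑ
        = ∑' i, ∫⁻ x in g i '' A, ‖φ x‖ₑ := tsum_congr h1
      _ = ∫⁻ x in ⋃ i, g i '' A, ‖φ x‖ₑ := (lintegral_iUnion hVm h.dis _).symm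
      _ ≤ ∫⁻ x in A, ‖φ x‖ₑ :=
        lintegral_mono_set (iUnion_subset fun i => (h.mA i).image_subset)
  have h3 : ∀ᵐ y ∂(volume.restrict A),
      ‖φ y‖ₑ ≤ ∑' i, ‖deriv (g i) y ^ 2 * φ (g i y)‖ₑ := by
    refine (ae_restrict_mem hAm).mono fun y hy => ?_
    have h4 : ‖φ y‖ₑ = ‖LL g φ y‖ₑ := by
      rw [he y (hA4 hy), enorm_mul]
      have : ‖μ‖ₑ = 1 := by
        rw [← ofReal_norm, hμ, ENNReal.ofReal_one]
      rw [this, one_mul]
    rw [h4]
    exact enorm_tsum_le_tsum_enorm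
  have h5 : ∫⁻ y in A, ‖φ y‖ₑ ≠ ⊤ := by
    have h6 : ∫⁻ y in A, ‖φ y‖ₑ ≤ ∫⁻ _ in A, ENNReal.ofReal M := by
      refine lintegral_mono_ae ((ae_restrict_mem hAm).mono fun y hy => ?_)
      rw [← ofReal_norm]
      exact ENNReal.ofReal_le_ofReal (hM y (hA4 hy))
    refine ne_top_of_le_ne_top ?_ h6
    rw [setLIntegral_const]
    refine ENNReal.mul_ne_top ENNReal.ofReal_ne_top ?_
    exact ne_top_of_le_ne_top (measure_ball_lt_top (μ := volume) (x := c) (r := 2 * s)).ne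
      (measure_mono h.As)
  exact ae_eq_of_ae_le_of_lintegral_le h3 h5 (AEMeasurable.tsum hFm) h2

/-- equality in the triangle inequality -/
private theorem ray {ι : Type} {F : ι → ℂ} (hF : Summable fun i => ‖F i‖) {w : ℂ}
    (hw : ∑' i, F i = w) (hn : ‖w‖ = ∑' i, ‖F i‖) (j : ι) : ‖F j‖ • w = ‖w‖ • F j := by
  classical
  have h1 : w = F j + ∑' i, ite (i = j) 0 (F i) := by
    rw [← hw]
    exact hF.of_norm.tsum_eq_add_tsum_ite j
  have h2 : ∑' i, ‖F i‖ = ‖F j‖ + ∑' i, ite (i = j) 0 ‖F i‖ := hF.tsum_eq_add_tsum_ite j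
  set R := ∑' i, ite (i = j) 0 (F i) with hR
  have h3 : ‖R‖ ≤ ∑' i, ite (i = j) 0 ‖F i‖ := by
    have h4 : ∀ i, ‖ite (i = j) 0 (F i)‖ = ite (i = j) 0 ‖F i‖ := by
      intro i
      split_ifs
      · exact norm_zero
      · rfl
    have h5 : Summable fun i => ‖ite (i = j) 0 (F i)‖ := by
      refine Summable.of_nonneg_of_le (fun _ => norm_nonneg _) (fun i => ?_) hF
      rw [h4]
      split_ifs
      · exact norm_nonneg _
      · exact le_rfl
    refine (norm_tsum_le_tsum_norm h5).trans (le_of_eq ?_)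
    exact tsum_congr h4
  have h6 : ‖F j + R‖ = ‖F j‖ + ‖R‖ := by
    refine le_antisymm (norm_add_le _ _) ?_
    rw [← h1, hn, h2]
    linarith
  have h7 : SameRay ℝ (F j) R := sameRay_iff_norm_add.2 h6
  have h8 : SameRay ℝ (F j) (F j + R) := (SameRay.refl (F j)).add_right h7
  rw [← h1] at h8
  exact sameRay_iff_norm_smul_eq.1 h8

/-- a real valued analytic function is locally constant -/
private theorem real_const {H : ℂ → ℂ} {y : ℂ} (hH : AnalyticAt ℂ H y)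
    (hr : ∀ᶠ z in 𝓝 y, (H z).im = 0) : ∀ᶠ z in 𝓝 y, H z = H y := by
  rcases hH.eventually_constant_or_nhds_le_map_nhds with h1 | h1
  · exact h1
  · exfalso
    have h2 : {w : ℂ | w.im = 0} ∈ 𝓝 (H y) := h1 hr
    obtain ⟨ε, hε, h3⟩ := Metric.mem_nhds_iff.1 h2
    have h4 : H y + ((ε / 2 : ℝ) : ℂ) * Complex.I ∈ ball (H y) ε := by
      rw [mem_ball, dist_eq_norm, add_sub_cancel_left, norm_mul, Complex.norm_I, mul_one,
        Complex.norm_real, Real.norm_eq_abs, abs_of_pos (by positivity)]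
      linarith
    have h5 : (H y + ((ε / 2 : ℝ) : ℂ) * Complex.I).im = 0 := h3 h4
    have h6 : (H y).im = 0 := h3 (mem_ball_self hε)
    rw [Complex.add_im, h6, Complex.mul_im, Complex.ofReal_re, Complex.ofReal_im, Complex.I_re,
      Complex.I_im] at h5
    linarith

theorem alg [Countable ι] (h : RSys ι c s A g) {μ : ℂ} {φ : ℂ → ℂ} {M : ℝ} (hμ : ‖μ‖ = 1)
    (hφ : DifferentiableOn ℂ φ (ball c (4 * s))) (hM : ∀ z ∈ ball c (4 * s), ‖φ z‖ ≤ M)
    (hne : ∃ z ∈ ball c (2 * s), φ z ≠ 0) (he : ∀ z ∈ ball c (4 * s), LL g φ z = μ * φ z) (j : ι) :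
    ∃ ρ : ℝ, 0 < ρ ∧ ∀ z ∈ A, deriv (g j) z ^ 2 * φ (g j z) = ρ * μ * φ z := by
  have hs := h.s0
  have h24 : ball c (2 * s) ⊆ ball c (4 * s) := ball_subset_ball (by linarith)
  have h48 : ball c (4 * s) ⊆ ball c (8 * s) := ball_subset_ball (by linarith)
  have hA4 : A ⊆ ball c (4 * s) := h.As.trans h24
  have hA8 : A ⊆ ball c (8 * s) := hA4.trans h48
  have hAm : MeasurableSet A := h.Ao.measurableSet
  have hμ0 : μ ≠ 0 := by
    rintro rfl
    rw [norm_zero] at hμ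
    exact zero_ne_one hμ
  have hFd : DifferentiableOn ℂ (fun y => deriv (g j) y ^ 2 * φ (g j y)) A := by
    refine DifferentiableOn.mono ?_ hA8
    refine DifferentiableOn.mul (DifferentiableOn.pow ((h.dif j).deriv isOpen_ball) 2) ?_
    exact (hφ.mono h24).comp (h.dif j) (h.big j)
  have hφA : DifferentiableOn ℂ φ A := hφ.mono hA4
  have hae : (fun y => ‖deriv (g j) y ^ 2 * φ (g j y)‖ • (μ * φ y)) =ᵐ[volume.restrict A]
      fun y => ‖μ * φ y‖ • (deriv (g j) y ^ 2 * φ (g j y)) := by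
    filter_upwards [ae_norm h hμ hφ hM he, ae_restrict_mem hAm] with y h1 hy
    have h2 : Summable fun i => ‖deriv (g i) y ^ 2 * φ (g i y)‖ :=
      bdd_sum h (fun z hz => hM z (h24 hz)) (hA4 hy)
    refine ray h2 (he y (hA4 hy)) ?_ j
    have h3 : ENNReal.ofReal ‖φ y‖ =
        ENNReal.ofReal (∑' i, ‖deriv (g i) y ^ 2 * φ (g i y)‖) := by
      rw [ENNReal.ofReal_tsum_of_nonneg (fun _ => norm_nonneg _) h2, ofReal_norm, h1]
      exact tsum_congr fun i => (ofReal_norm _).symm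
    rw [ENNReal.ofReal_eq_ofReal_iff (norm_nonneg _) (tsum_nonneg fun _ => norm_nonneg _)] at h3
    rw [norm_mul, hμ, one_mul, h3]
  have hall : ∀ y ∈ A, ‖deriv (g j) y ^ 2 * φ (g j y)‖ • (μ * φ y) =
      ‖μ * φ y‖ • (deriv (g j) y ^ 2 * φ (g j y)) := by
    have h1 := Measure.eqOn_open_of_ae_eq hae h.Ao
      (hFd.continuousOn.norm.smul (continuousOn_const.mul hφA.continuousOn))
      ((continuousOn_const.mul hφA.continuousOn).norm.smul hFd.continuousOn)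
    exact h1
  obtain ⟨y0, hy0, hφ0⟩ : ∃ y ∈ A, φ y ≠ 0 := by
    by_contra hcon
    push Not at hcon
    have hcA : c ∈ A := h.bA (mem_ball_self (by positivity))
    exact ident hs hφ hne (hA4 hcA) (eventually_of_mem (h.Ao.mem_nhds hcA) hcon)
  have hanF : AnalyticOnNhd ℂ (fun y => deriv (g j) y ^ 2 * φ (g j y)) A :=
    hFd.analyticOnNhd h.Ao
  have hanφ : AnalyticOnNhd ℂ φ A := hφA.analyticOnNhd h.Ao
  have hanH : AnalyticAt ℂ (fun y => deriv (g j) y ^ 2 * φ (g j y) / (μ * φ y)) y0 :=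
    (hanF y0 hy0).div (analyticAt_const.mul (hanφ y0 hy0)) (mul_ne_zero hμ0 hφ0)
  have hnz : ∀ᶠ z in 𝓝 y0, φ z ≠ 0 := (hanφ y0 hy0).continuousAt.eventually_ne hφ0
  have hval : ∀ z ∈ A, φ z ≠ 0 → deriv (g j) z ^ 2 * φ (g j z) / (μ * φ z) =
      ((‖deriv (g j) z ^ 2 * φ (g j z)‖ / ‖μ * φ z‖ : ℝ) : ℂ) := by
    intro z hz hz0
    have h1 := hall z hz
    have h2 : μ * φ z ≠ 0 := mul_ne_zero hμ0 hz0
    have h3 : ((‖μ * φ z‖ : ℝ) : ℂ) ≠ 0 := by
      rw [Ne, Complex.ofReal_eq_zero, norm_eq_zero]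
      exact h2
    rw [Complex.real_smul, Complex.real_smul] at h1
    rw [Complex.ofReal_div, div_eq_div_iff h2 h3, h1]
    ring
  have hreal : ∀ᶠ z in 𝓝 y0,
      ((fun y => deriv (g j) y ^ 2 * φ (g j y) / (μ * φ y)) z).im = 0 := by
    filter_upwards [hnz, h.Ao.mem_nhds hy0] with z hz hzA
    show (deriv (g j) z ^ 2 * φ (g j z) / (μ * φ z)).im = 0
    rw [hval z hzA hz, Complex.ofReal_im]
  have hconst := real_const hanH hreal
  set ρ : ℝ := ‖deriv (g j) y0 ^ 2 * φ (g j y0)‖ / ‖μ * φ y0‖ with hρ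
  have hEq : EqOn (fun y => deriv (g j) y ^ 2 * φ (g j y)) (fun y => ρ * μ * φ y) A := by
    refine hanF.eqOn_of_preconnected_of_eventuallyEq
      (fun y hy => analyticAt_const.mul (hanφ y hy)) h.Ac hy0 ?_
    filter_upwards [hconst, hnz] with z h1 hz
    have h2 : deriv (g j) z ^ 2 * φ (g j z) / (μ * φ z) = (ρ : ℂ) := by
      have h3 : deriv (g j) z ^ 2 * φ (g j z) / (μ * φ z) =
        deriv (g j) y0 ^ 2 * φ (g j y0) / (μ * φ y0) := h1
      rw [h3, hval y0 hy0 hφ0]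
    rw [div_eq_iff (mul_ne_zero hμ0 hz)] at h2
    rw [h2]
    ring
  have hρ0 : 0 ≤ ρ := by positivity
  refine ⟨ρ, lt_of_le_of_ne hρ0 fun h0 => ?_, fun z hz => hEq hz⟩
  have hsub : ball c (s / 2) ⊆ ball c (8 * s) := ball_subset_ball (by linarith)
  have hdc : 0 < ‖deriv (g j) c‖ := deriv_ne (R := 8 * s) (by positivity) (h.dif j) (h.inj j)
    (mem_closedBall_self (by positivity))
  have h1 : ball (g j c) (s / 2 * ‖deriv (g j) c‖ / 16) ⊆ g j '' A :=
    (univ_cover (by positivity) ((h.dif j).mono hsub) ((h.inj j).mono hsub)).trans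
      (image_mono h.bA)
  have hcA : c ∈ A := h.bA (mem_ball_self (by positivity))
  refine ident hs hφ hne (p := g j c) (hA4 (h.mA j hcA)) ?_
  have hr0 : 0 < s / 2 * ‖deriv (g j) c‖ / 16 := by positivity
  refine eventually_of_mem (ball_mem_nhds _ hr0) fun u hu => ?_
  obtain ⟨z, hz, rfl⟩ := h1 hu
  have h2 : deriv (g j) z ^ 2 * φ (g j z) = ρ * μ * φ z := hEq hz
  rw [← h0, Complex.ofReal_zero, zero_mul, zero_mul] at h2
  have h3 : deriv (g j) z ≠ 0 := by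
    refine norm_pos_iff.1 (deriv_ne (R := 8 * s) (by positivity) (h.dif j) (h.inj j) ?_)
    rw [mem_closedBall]
    have := mem_ball.1 (hA4 hz)
    linarith
  exact (mul_eq_zero.1 h2).resolve_left (pow_ne_zero 2 h3)

end Pool.Agent.H1.RO
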