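import Pool.Agent.H1.RO.Alg

/-!
# Module AlgW: the alignment for words

PROOF. Induction on `n` (for all `w`). `n = 0`: `wm g 0 w` is the identity, `ρ = 1` (`deriv_id`). Step: `wm g (n + 1) w = wm g n (tail) ∘ g (w 0)`; for `z ∈ A ⊆ ball c (2 s)` (`As`) `wor_der`:
`deriv (wm g (n + 1) w) z = deriv (wm g n tail) (g (w 0) z) * deriv (g (w 0)) z`. With the induction hypothesis at `g (w 0) z ∈ A` (`mA`) and `alg` for `j = w 0` at `z`:
`.. = ρ' μ^n φ (g (w 0) z) (deriv (g (w 0)) z)^2 = ρ' μ^n ρ μ φ z`.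
-/

set_option autoImplicit false

open MeasureTheory Metric Set Filter Topology

namespace Pool.Agent.H1.RO

variable {ι : Type} {c : ℂ} {s : ℝ} {A : Set ℂ} {g : ι → ℂ → ℂ}

/-- the same for words -/
theorem alg_wm [Countable ι] (h : RSys ι c s A g) {μ : ℂ} {φ : ℂ → ℂ} {M : ℝ} (hμ : ‖μ‖ = 1)
    (hφ : DifferentiableOn ℂ φ (ball c (4 * s))) (hM : ∀ z ∈ ball c (4 * s), ‖φ z‖ ≤ M)
    (hne : ∃ z ∈ ball c (2 * s), φ z ≠ 0) (he : ∀ z ∈ ball c (4 * s), LL g φ z = μ * φ z) (n : ℕ)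
    (w : Fin n → ι) :
    ∃ ρ : ℝ, 0 < ρ ∧ ∀ z ∈ A, deriv (wm g n w) z ^ 2 * φ (wm g n w z) = ρ * μ ^ n * φ z := by
  induction n with
  | zero =>
    refine ⟨1, one_pos, fun z _ => ?_⟩
    have h1 : wm g 0 w = fun y => y := rfl
    rw [h1, deriv_id'']
    simp
  | succ n ih =>
    obtain ⟨ρ', hρ', h2⟩ := ih (fun i => w i.succ)
    obtain ⟨ρ, hρ, h3⟩ := alg h hμ hφ hM hne he (w 0)
    refine ⟨ρ' * ρ, mul_pos hρ' hρ, fun z hz => ?_⟩
    have hz8 : z ∈ ball c (8 * s) := ball_subset_ball (by linarith [h.s0]) (h.As hz)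
    have h4 : wm g (n + 1) w z = wm g n (fun i => w i.succ) (g (w 0) z) := rfl
    have h5 := h2 (g (w 0) z) (h.mA (w 0) hz)
    have h6 := h3 z hz
    rw [wor_der h n w hz8, h4]
    push_cast
    linear_combination deriv (g (w 0)) z ^ 2 * h5 + (ρ' : ℂ) * μ ^ n * h6

end Pool.Agent.H1.RO
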