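import Mathlib

/-!
# Module BanA: power bounded compact operators (Mathlib only)

STATEMENT. `X` a complex Banach space, `T` compact, `‖T^n‖ ≤ C` for all `n`. Then `‖T^n‖ ≤ D θ^n` for some `θ < 1`, or `T` has an eigenvalue of modulus `1`.

PROOF. `X` trivial (subsingleton): the first case. Otherwise `X →L[ℂ] X` is a nontrivial complex Banach algebra. Let `sp = spectrum ℂ T` (compact, nonempty).
(1) `spectralRadius ℂ T ≤ 1`: `spectrum.pow_nnnorm_pow_one_div_tendsto_nhds_spectralRadius` (Gelfand) and `‖T^n‖^(1/n) ≤ (max C 1)^(1/n) → 1`; or directly: `μ ∈ sp`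
implies `μ^n ∈ spectrum (T^n)` (`spectrum.pow_mem_pow`), `‖μ‖^n ≤ ‖T^n‖ * ‖1‖ ≤ C'` for all `n`, so `‖μ‖ ≤ 1`. (2) If `spectralRadius ℂ T < 1`: choose `θ` with
`spectralRadius < θ < 1`; by Gelfand's formula `‖T^n‖ ≤ θ^n` for all large `n`, and `D` takes care of the finitely many others. (3) If it is `1`: the supremum is
attained (`spectrum.exists_nnnorm_eq_spectralRadius`, `X →L[ℂ] X` nontrivial): `μ ∈ sp`, `‖μ‖ = 1`; `μ ≠ 0`, so by the Fredholm alternative
(`IsCompactOperator.hasEigenvalue_or_mem_resolventSet`, Mathlib/Analysis/Normed/Operator/Compact/FredholmAlternative) `μ` is an eigenvalue: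
`Module.End.HasEigenvalue.exists_hasEigenvector` gives `x ≠ 0` with `T x = μ • x`.
-/

set_option autoImplicit false

open Metric Set Filter Topology

namespace Pool.Agent.H1.RO

theorem ban_a {X : Type} [NormedAddCommGroup X] [NormedSpace ℂ X] [CompleteSpace X] (T : X →L[ℂ] X)
    (hT : IsCompactOperator T) {C : ℝ} (hC : ∀ n : ℕ, ‖T ^ n‖ ≤ C) :
    (∃ θ D : ℝ, 0 < θ ∧ θ < 1 ∧ ∀ n : ℕ, ‖T ^ n‖ ≤ D * θ ^ n) ∨
      ∃ (μ : ℂ) (x : X), ‖μ‖ = 1 ∧ x ≠ 0 ∧ T x = μ • x := by
  rcases subsingleton_or_nontrivial X with hX | hX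
  · left
    refine ⟨1 / 2, 1, by norm_num, by norm_num, fun n => ?_⟩
    have h0 : T ^ n = 0 := by
      ext x
      exact Subsingleton.elim _ _
    rw [h0, norm_zero]
    positivity
  have hC0 : 0 ≤ C := (norm_nonneg _).trans (hC 0)
  obtain ⟨μ, hμ, hμr⟩ := spectrum.exists_nnnorm_eq_spectralRadius (A := X →L[ℂ] X) T
  have hle : ‖μ‖ ≤ 1 := by
    have hb : ∀ n : ℕ, ‖μ‖ ^ n ≤ C * ‖(1 : X →L[ℂ] X)‖ := by
      intro n
      have h1 : μ ^ n ∈ spectrum ℂ (T ^ n) := spectrum.pow_mem_pow T n hμ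
      have h2 := spectrum.norm_le_norm_mul_of_mem h1
      rw [norm_pow] at h2
      refine h2.trans ?_
      gcongr
      exact hC n
    by_contra h
    push Not at h
    obtain ⟨n, hn⟩ := ((tendsto_pow_atTop_atTop_of_one_lt h).eventually_gt_atTop
      (C * ‖(1 : X →L[ℂ] X)‖)).exists
    exact absurd (hb n) (not_le.2 hn)
  rcases hle.lt_or_eq with hlt | heq
  · left
    obtain ⟨θ, h1, h2⟩ := exists_between hlt
    have hθ : 0 < θ := lt_of_le_of_lt (norm_nonneg _) h1
    have hsr : spectralRadius ℂ T < ENNReal.ofReal θ := by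
      rw [← hμr, ENNReal.lt_ofReal_iff_toReal_lt ENNReal.coe_ne_top]
      simpa using h1
    have hG := (spectrum.pow_norm_pow_one_div_tendsto_nhds_spectralRadius T).eventually_lt_const hsr
    have hG' : ∀ᶠ n : ℕ in atTop, ‖T ^ n‖ ≤ θ ^ n := by
      filter_upwards [hG, eventually_gt_atTop 0] with n hn hn0
      rw [ENNReal.ofReal_lt_ofReal_iff hθ] at hn
      have hn' : (n : ℝ) ≠ 0 := by exact_mod_cast hn0.ne'
      have h5 : (‖T ^ n‖ ^ (1 / n : ℝ)) ^ n = ‖T ^ n‖ := by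
        rw [← Real.rpow_natCast, ← Real.rpow_mul (norm_nonneg _), one_div, inv_mul_cancel₀ hn',
          Real.rpow_one]
      rw [← h5]
      exact pow_le_pow_left₀ (by positivity) hn.le n
    obtain ⟨N, hN⟩ := eventually_atTop.1 hG'
    refine ⟨θ, max 1 (C / θ ^ N), hθ, h2, fun n => ?_⟩
    rcases le_total N n with h | h
    · exact (hN n h).trans (le_mul_of_one_le_left (by positivity) (le_max_left _ _))
    · calc ‖T ^ n‖ ≤ C := hC n
        _ = C / θ ^ N * θ ^ N := by field_simp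
        _ ≤ max 1 (C / θ ^ N) * θ ^ n :=
          mul_le_mul (le_max_right _ _) (pow_le_pow_of_le_one hθ.le h2.le h) (by positivity)
            (by positivity)
  · right
    have hμ0 : μ ≠ 0 := by
      rintro rfl
      simp at heq
    obtain ⟨x, hx⟩ := ((hT.hasEigenvalue_iff_mem_spectrum hμ0).2 hμ).exists_hasEigenvector
    exact ⟨μ, x, heq, hx.2, hx.apply_eq_smul⟩

end Pool.Agent.H1.RO
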