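import Mathlib

/-!
# Module BanB: a compactness criterion in `ℓ¹` (Mathlib only)

STATEMENT. `T : X → ℓ¹(ℕ, ℂ)` bounded linear, `‖(T x) n‖ ≤ C q^n ‖x‖` for all `n, x`, `0 ≤ q < 1`. Then `T` is a compact operator.

PROOF. Let `P N : ℓ¹ → ℓ¹` be the truncation to the coordinates `n < N`: a continuous linear map, e.g. `P N y = ∑ n ∈ range N, lp.single 1 n (y n)`. `T_N = P N ∘ T` is
compact: it is a finite sum of maps `x ↦ lp.single 1 n (T x n)`, each of which factors through `ℂ` (`isCompactOperator_of_locallyCompactSpace_dom` or `_rng` for `ℂ`, and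
`IsCompactOperator.clm_comp`, `comp_clm`; `IsCompactOperator.add`), or: the range is finite dimensional. `‖T x - T_N x‖ = ∑ n ≥ N, ‖(T x) n‖ ≤ C q^N / (1 - q) ‖x‖`
(`lp.norm_eq_tsum_rpow` with `p = 1`, or `lp.norm_le_of_tsum_le`), so `T_N → T` in operator norm and `isCompactOperator_of_tendsto` (Mathlib/Analysis/Normed/Operator/Compact/Basic) applies.
(For `C < 0` the hypothesis forces everything to be `0`; replace `C` by `max C 0`.)
-/

set_option autoImplicit false

open Metric Set Filter Topology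

namespace Pool.Agent.H1.RO

private lemma cont_finsum {X Y : Type} [NormedAddCommGroup X] [NormedSpace ℂ X] [NormedAddCommGroup Y] [NormedSpace ℂ Y]
    (A : ℕ → (X →L[ℂ] Y)) (hA : ∀ n, IsCompactOperator (A n)) (s : Finset ℕ) :
    IsCompactOperator (∑ n ∈ s, A n : X →L[ℂ] Y) := by
  classical
  induction s using Finset.induction_on with
  | empty =>
    rw [Finset.sum_empty]
    exact isCompactOperator_zero
  | insert a s ha ih =>
    rw [Finset.sum_insert ha]
    exact (hA a).add ih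

private lemma tail_le (y : lp (fun _ : ℕ => ℂ) 1) {D q : ℝ} (hq : 0 ≤ q) (hq1 : q < 1)
    (h : ∀ n, ‖(y : ℕ → ℂ) n‖ ≤ D * q ^ n) (N : ℕ) :
    ‖y - ∑ n ∈ Finset.range N, lp.single 1 n ((y : ℕ → ℂ) n)‖ ≤ D * q ^ N / (1 - q) := by
  have hp : 0 < (1 : ENNReal).toReal := by simp
  have h1 := lp.norm_compl_sum_single hp y (Finset.range N)
  have h2 := lp.hasSum_norm hp y
  simp only [ENNReal.toReal_one, Real.rpow_one] at h1 h2
  rw [h1]
  have h3 : ‖y‖ - ∑ i ∈ Finset.range N, ‖(y : ℕ → ℂ) i‖ = ∑' i, ‖(y : ℕ → ℂ) (i + N)‖ := by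
    rw [← h2.tsum_eq, ← h2.summable.sum_add_tsum_nat_add N, add_sub_cancel_left]
  rw [h3]
  have h4 : Summable fun i => D * q ^ (i + N) := by
    have h5 := (summable_geometric_of_lt_one hq hq1).mul_left (D * q ^ N)
    refine h5.congr fun i => ?_
    rw [pow_add]
    ring
  have h6 : ∑' i, D * q ^ (i + N) = D * q ^ N / (1 - q) := by
    have h7 : ∀ i, D * q ^ (i + N) = D * q ^ N * q ^ i := fun i => by
      rw [pow_add]
      ring
    simp only [h7]
    rw [tsum_mul_left, tsum_geometric_of_lt_one hq hq1]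
    rfl
  rw [← h6]
  refine Summable.tsum_le_tsum (fun i => h (i + N)) ?_ h4
  exact (summable_nat_add_iff N).2 h2.summable

theorem ban_b {X : Type} [NormedAddCommGroup X] [NormedSpace ℂ X] (T : X →L[ℂ] lp (fun _ : ℕ => ℂ) 1)
    {C q : ℝ} (hq : 0 ≤ q) (hq1 : q < 1) (h : ∀ (x : X) (n : ℕ), ‖(T x : ℕ → ℂ) n‖ ≤ C * q ^ n * ‖x‖) :
    IsCompactOperator T := by
  have hC : ∀ (x : X) (n : ℕ), ‖(T x : ℕ → ℂ) n‖ ≤ (max C 0) * q ^ n * ‖x‖ := by
    intro x n
    refine (h x n).trans ?_
    gcongr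
    exact le_max_left _ _
  set D : ℝ := max C 0 with hD
  have hD0 : 0 ≤ D := le_max_right _ _
  -- coordinate functionals
  let ev : ℕ → (X →L[ℂ] ℂ) := fun n => LinearMap.mkContinuous
    { toFun := fun x => (T x : ℕ → ℂ) n
      map_add' := fun x y => by
        rw [map_add]
        rfl
      map_smul' := fun c x => by
        rw [map_smul]
        rfl } (D * q ^ n) (fun x => hC x n)
  let sg : ℕ → (ℂ →L[ℂ] lp (fun _ : ℕ => ℂ) 1) := fun n => lp.singleContinuousLinearMap ℂ (fun _ : ℕ => ℂ) 1 n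
  let TN : ℕ → (X →L[ℂ] lp (fun _ : ℕ => ℂ) 1) := fun N => ∑ n ∈ Finset.range N, (sg n).comp (ev n)
  have hTN : ∀ N, IsCompactOperator (TN N) := by
    intro N
    refine cont_finsum _ (fun n => ?_) _
    exact (isCompactOperator_of_locallyCompactSpace_rng (sg n)).comp_clm (ev n)
  have hb : ∀ N, ‖TN N - T‖ ≤ D * q ^ N / (1 - q) := by
    intro N
    have h1q : 0 < 1 - q := by linarith
    refine ContinuousLinearMap.opNorm_le_bound _ (by positivity) fun x => ?_
    have e : (TN N - T) x = -(T x - ∑ n ∈ Finset.range N, lp.single 1 n ((T x : ℕ → ℂ) n)) := by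
      rw [neg_sub, ContinuousLinearMap.sub_apply, ContinuousLinearMap.sum_apply]
      rfl
    rw [e, norm_neg]
    refine (tail_le (T x) hq hq1 (D := D * ‖x‖) (fun n => ?_) N).trans (le_of_eq (by ring))
    refine (hC x n).trans (le_of_eq (by ring))
  have hlim : Tendsto TN atTop (𝓝 T) := by
    rw [tendsto_iff_norm_sub_tendsto_zero]
    have h1 : Tendsto (fun N : ℕ => D * q ^ N / (1 - q)) atTop (𝓝 (D * 0 / (1 - q))) :=
      ((tendsto_pow_atTop_nhds_zero_of_lt_one hq hq1).const_mul D).div_const _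
    rw [mul_zero, zero_div] at h1
    exact squeeze_zero (fun N => norm_nonneg _) hb h1
  exact isCompactOperator_of_tendsto hlim (Eventually.of_forall hTN)

end Pool.Agent.H1.RO
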