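import Pool.Agent.H1.RO.Der

/-!
# Module Bdd: the return operator on bounded holomorphic functions

STATEMENT. `φ` holomorphic on `ball c (2 s)`, `‖φ‖ ≤ M` there: `LL g φ` is holomorphic on `ball c (4 s)` and bounded by `4096 KK^2 M` there; the series
converges absolutely; `LL g` is additive, homogeneous, and depends only on the values of `φ` on `ball c (2 s)`.

PROOF. For `y ∈ ball c (4 s) ⊆ ball c (8 s)` `g i y ∈ ball c (2 s)` (`big`), so `‖deriv (g i) y ^ 2 * φ (g i y)‖ ≤ ‖deriv (g i) y‖^2 * M`; with `der_sum` the series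
converges absolutely and the bound follows (`norm_tsum_le_tsum_norm`, `Summable.tsum_le_tsum`, `tsum_mul_right`). Holomorphic: `differentiableOn_tsum_of_summable_norm` needs
a bound independent of `y`: `‖deriv (g i) y‖^2 * M ≤ (KK * ‖deriv (g i) c‖)^2 * M` (`distort` of H80/AJ/Distort with `R = 8 s`), summable by `der_sum` at `y = c`;
each term is differentiable on `ball c (4 s)`: `deriv (g i)` is (`DifferentiableOn.deriv` on the open ball), `φ ∘ g i` by `DifferentiableOn.comp`. `bdd_loc`: `tsum_congr`.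
`bdd_add`, `bdd_smul`: `Summable.tsum_add`, `tsum_mul_left`.
-/

set_option autoImplicit false

open MeasureTheory Metric Set Filter Topology

namespace Pool.Agent.H1.RO

open Pool.Agent.H80.AJ

variable {ι : Type} {c : ℂ} {s : ℝ} {A : Set ℂ} {g : ι → ℂ → ℂ}

private theorem term_le (h : RSys ι c s A g) {φ : ℂ → ℂ} {M : ℝ}
    (hM : ∀ z ∈ ball c (2 * s), ‖φ z‖ ≤ M) {y : ℂ} (hy : y ∈ ball c (4 * s)) (i : ι) :
    ‖deriv (g i) y ^ 2 * φ (g i y)‖ ≤ ‖deriv (g i) y‖ ^ 2 * M := by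
  have hs := h.s0
  have h8 : y ∈ ball c (8 * s) := ball_subset_ball (by linarith) hy
  rw [norm_mul, norm_pow]
  exact mul_le_mul_of_nonneg_left (hM _ (h.big i h8)) (by positivity)

theorem bdd_sum (h : RSys ι c s A g) {φ : ℂ → ℂ} {M : ℝ} (hM : ∀ z ∈ ball c (2 * s), ‖φ z‖ ≤ M) {y : ℂ}
    (hy : y ∈ ball c (4 * s)) : Summable fun i => ‖deriv (g i) y ^ 2 * φ (g i y)‖ :=
  Summable.of_nonneg_of_le (fun _ => norm_nonneg _) (fun i => term_le h hM hy i)
    ((der_sum h hy).1.mul_right M)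

theorem bdd_le (h : RSys ι c s A g) {φ : ℂ → ℂ} {M : ℝ} (hM : ∀ z ∈ ball c (2 * s), ‖φ z‖ ≤ M) {y : ℂ}
    (hy : y ∈ ball c (4 * s)) : ‖LL g φ y‖ ≤ 4096 * KK ^ 2 * M := by
  have hs := h.s0
  have hM0 : 0 ≤ M := (norm_nonneg _).trans (hM c (mem_ball_self (by positivity)))
  have h1 := bdd_sum h hM hy
  calc ‖LL g φ y‖ ≤ ∑' i, ‖deriv (g i) y ^ 2 * φ (g i y)‖ := norm_tsum_le_tsum_norm h1
    _ ≤ ∑' i, ‖deriv (g i) y‖ ^ 2 * M :=
        h1.tsum_le_tsum (fun i => term_le h hM hy i) ((der_sum h hy).1.mul_right M)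
    _ = (∑' i, ‖deriv (g i) y‖ ^ 2) * M := tsum_mul_right
    _ ≤ 4096 * KK ^ 2 * M := mul_le_mul_of_nonneg_right (der_sum h hy).2 hM0

theorem bdd_dif (h : RSys ι c s A g) {φ : ℂ → ℂ} {M : ℝ} (hφ : DifferentiableOn ℂ φ (ball c (2 * s)))
    (hM : ∀ z ∈ ball c (2 * s), ‖φ z‖ ≤ M) : DifferentiableOn ℂ (LL g φ) (ball c (4 * s)) := by
  have hs := h.s0
  have hKK := KK_pos
  have hM0 : 0 ≤ M := (norm_nonneg _).trans (hM c (mem_ball_self (by positivity)))
  have hc : c ∈ ball c (4 * s) := mem_ball_self (by positivity)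
  have hsub : ball c (4 * s) ⊆ ball c (8 * s) := ball_subset_ball (by linarith)
  have hu : Summable fun i => KK ^ 2 * M * ‖deriv (g i) c‖ ^ 2 :=
    (der_sum h hc).1.mul_left _
  refine Complex.differentiableOn_tsum_of_summable_norm hu (fun i => ?_) isOpen_ball fun i y hy => ?_
  · refine DifferentiableOn.mul (DifferentiableOn.pow ?_ 2) ?_
    · exact ((h.dif i).deriv isOpen_ball).mono hsub
    · exact hφ.comp ((h.dif i).mono hsub) ((h.big i).mono_left hsub)
  · refine (term_le h hM hy i).trans ?_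
    have h1 : ‖deriv (g i) y‖ ≤ KK * ‖deriv (g i) c‖ := by
      refine distort (R := 8 * s) (by positivity) (h.dif i) (h.inj i) ?_ ?_
      · rw [mem_closedBall]
        have := mem_ball.1 hy
        linarith
      · exact mem_closedBall_self (by positivity)
    have h2 : ‖deriv (g i) y‖ ^ 2 ≤ (KK * ‖deriv (g i) c‖) ^ 2 :=
      pow_le_pow_left₀ (norm_nonneg _) h1 2
    calc ‖deriv (g i) y‖ ^ 2 * M ≤ (KK * ‖deriv (g i) c‖) ^ 2 * M :=
          mul_le_mul_of_nonneg_right h2 hM0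
      _ = KK ^ 2 * M * ‖deriv (g i) c‖ ^ 2 := by ring

theorem bdd_loc (h : RSys ι c s A g) {φ ψ : ℂ → ℂ} (he : ∀ z ∈ ball c (2 * s), φ z = ψ z) {y : ℂ}
    (hy : y ∈ ball c (4 * s)) : LL g φ y = LL g ψ y := by
  have hs := h.s0
  have h8 : y ∈ ball c (8 * s) := ball_subset_ball (by linarith) hy
  exact tsum_congr fun i => by rw [he _ (h.big i h8)]

theorem bdd_add (h : RSys ι c s A g) {φ ψ : ℂ → ℂ} {M : ℝ} (hM : ∀ z ∈ ball c (2 * s), ‖φ z‖ ≤ M)
    (hN : ∀ z ∈ ball c (2 * s), ‖ψ z‖ ≤ M) {y : ℂ} (hy : y ∈ ball c (4 * s)) :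
    LL g (fun z => φ z + ψ z) y = LL g φ y + LL g ψ y := by
  have h1 : Summable fun i => deriv (g i) y ^ 2 * φ (g i y) := (bdd_sum h hM hy).of_norm
  have h2 : Summable fun i => deriv (g i) y ^ 2 * ψ (g i y) := (bdd_sum h hN hy).of_norm
  unfold LL
  rw [← h1.tsum_add h2]
  exact tsum_congr fun i => mul_add _ _ _

theorem bdd_smul {φ : ℂ → ℂ} (a : ℂ) (y : ℂ) : LL g (fun z => a * φ z) y = a * LL g φ y := by
  unfold LL
  rw [← tsum_mul_left]
  exact tsum_congr fun i => by ring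

end Pool.Agent.H1.RO
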