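import Mathlib

/-!
# Module Tay: holomorphic functions on a disc and their coefficients (Mathlib only)

`ser c r x z = ∑ n, x n ((z - c) / r)^n`, `x ∈ ℓ¹`.

STATEMENT. (`tay_ser`) `ser c r x` is holomorphic on `ball c r` and bounded by `‖x‖` there. (`tay_inj`) `ser c r x = 0` on `ball c r` implies `x = 0`.
(`tay_cof`) If `ψ` is holomorphic on `ball c R` and bounded by `M` there, `r < R`, then `cof c r ψ n = r^n * (iteratedDeriv n ψ c / n!)` is bounded by `M (r / R)^n`, and
`ψ z = ∑ n, cof c r ψ n ((z - c)/r)^n` on `ball c R`, absolutely convergent.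

PROOF. `tay_ser`: `differentiableOn_tsum_of_summable_norm` (terms bounded by `‖x n‖`, summable: `lp.summable` / `memℓp`, `p = 1`) and `norm_tsum_le_tsum_norm`,
`lp.norm_eq_tsum_rpow`. `tay_inj`: the function is the sum of the power series with coefficients `x n / r^n` at `c` on the ball of radius `r`
(`HasFPowerSeriesAt`, e.g. `FormalMultilinearSeries.ofScalars` or `hasFPowerSeriesOnBall`), which is `0` near `c`: uniqueness (`HasFPowerSeriesAt.eq_zero` /
`HasFPowerSeriesAt.eq_formalMultilinearSeries`); or by induction on `n` divide by powers of `z - c` and let `z → c`. `tay_cof`: for every `ρ` with `0 < ρ < R`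
`Complex.norm_iteratedDeriv_le_of_forall_mem_sphere_norm_le` on `closedBall c ρ`: `‖iteratedDeriv n ψ c‖ ≤ n! M / ρ^n`; let `ρ → R` (`r > 0`, `M ≥ 0`). The sum:
`Complex.hasSum_taylorSeries_on_ball` (`DifferentiableOn` on `ball c R`), `((z - c)/r)^n r^n = (z - c)^n`.
-/

set_option autoImplicit false

open Metric Set Filter Topology

namespace Pool.Agent.H1.RO

/-- the function with the coefficients `x` -/
noncomputable def ser (c : ℂ) (r : ℝ) (x : ℕ → ℂ) (z : ℂ) : ℂ := ∑' n, x n * ((z - c) / r) ^ n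

/-- the coefficients of a function -/
noncomputable def cof (c : ℂ) (r : ℝ) (ψ : ℂ → ℂ) (n : ℕ) : ℂ := (r : ℂ) ^ n * (iteratedDeriv n ψ c / n.factorial)

private lemma quo_le {c : ℂ} {r : ℝ} (hr : 0 < r) {z : ℂ} (hz : z ∈ ball c r) : ‖(z - c) / (r : ℂ)‖ ≤ 1 := by
  rw [norm_div, Complex.norm_real, Real.norm_of_nonneg hr.le, div_le_one hr]
  rw [mem_ball_iff_norm] at hz
  exact hz.le

private lemma term_le {c : ℂ} {r : ℝ} (hr : 0 < r) (y : ℕ → ℂ) {z : ℂ} (hz : z ∈ ball c r) (n : ℕ) :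
    ‖y n * ((z - c) / r) ^ n‖ ≤ ‖y n‖ := by
  rw [norm_mul, norm_pow]
  have h1 : ‖(z - c) / (r : ℂ)‖ ^ n ≤ 1 := pow_le_one₀ (norm_nonneg _) (quo_le hr hz)
  calc ‖y n‖ * ‖(z - c) / (r : ℂ)‖ ^ n ≤ ‖y n‖ * 1 := by gcongr
    _ = ‖y n‖ := mul_one _

private lemma ser_diff {c : ℂ} {r : ℝ} (hr : 0 < r) (y : ℕ → ℂ) (hy : Summable fun n => ‖y n‖) :
    DifferentiableOn ℂ (ser c r y) (ball c r) := by
  refine Complex.differentiableOn_tsum_of_summable_norm (u := fun n => ‖y n‖) hy ?_ isOpen_ball ?_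
  · intro n
    fun_prop
  · intro n z hz
    exact term_le hr y hz n

private lemma sm (x : lp (fun _ : ℕ => ℂ) 1) : Summable fun n => ‖(x : ℕ → ℂ) n‖ := by
  have h2 := lp.hasSum_norm (by simp : 0 < (1 : ENNReal).toReal) x
  simp only [ENNReal.toReal_one, Real.rpow_one] at h2
  exact h2.summable

theorem tay_ser {c : ℂ} {r : ℝ} (hr : 0 < r) (x : lp (fun _ : ℕ => ℂ) 1) :
    DifferentiableOn ℂ (ser c r (x : ℕ → ℂ)) (ball c r) ∧ ∀ z ∈ ball c r, ‖ser c r (x : ℕ → ℂ) z‖ ≤ ‖x‖ := by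
  refine ⟨ser_diff hr _ (sm x), fun z hz => ?_⟩
  have h2 := lp.hasSum_norm (by simp : 0 < (1 : ENNReal).toReal) x
  simp only [ENNReal.toReal_one, Real.rpow_one] at h2
  rw [← h2.tsum_eq]
  have h3 : Summable fun n => ‖(x : ℕ → ℂ) n * ((z - c) / r) ^ n‖ :=
    Summable.of_nonneg_of_le (fun n => norm_nonneg _) (term_le hr _ hz) (sm x)
  refine (norm_tsum_le_tsum_norm h3).trans ?_
  exact Summable.tsum_le_tsum (term_le hr _ hz) h3 (sm x)

theorem tay_inj {c : ℂ} {r : ℝ} (hr : 0 < r) (x : lp (fun _ : ℕ => ℂ) 1)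
    (h : ∀ z ∈ ball c r, ser c r (x : ℕ → ℂ) z = 0) : x = 0 := by
  have hrc : (r : ℂ) ≠ 0 := by exact_mod_cast hr.ne'
  have key : ∀ N, (x : ℕ → ℂ) N = 0 := by
    intro N
    induction N using Nat.strong_induction_on with
    | _ N ih =>
    have hy : Summable fun n => ‖(x : ℕ → ℂ) (n + N)‖ := (summable_nat_add_iff N).2 (sm x)
    have hg := ser_diff (c := c) hr (fun n => (x : ℕ → ℂ) (n + N)) hy
    have hcc : c ∈ ball c r := mem_ball_self hr
    have hcont : ContinuousAt (ser c r (fun n => (x : ℕ → ℂ) (n + N))) c :=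
      (hg.differentiableAt (isOpen_ball.mem_nhds hcc)).continuousAt
    have hz : ∀ z ∈ ball c r, z ≠ c → ser c r (fun n => (x : ℕ → ℂ) (n + N)) z = 0 := by
      intro z hz hzc
      have hw : (z - c) / (r : ℂ) ≠ 0 := div_ne_zero (sub_ne_zero.2 hzc) hrc
      have hs : Summable fun n => (x : ℕ → ℂ) n * ((z - c) / r) ^ n :=
        (Summable.of_nonneg_of_le (fun n => norm_nonneg _) (term_le hr _ hz) (sm x)).of_norm
      have h1 := h z hz
      unfold ser at h1
      rw [← hs.sum_add_tsum_nat_add N] at h1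
      have h2 : ∑ i ∈ Finset.range N, (x : ℕ → ℂ) i * ((z - c) / r) ^ i = 0 := by
        refine Finset.sum_eq_zero fun i hi => ?_
        rw [ih i (Finset.mem_range.1 hi), zero_mul]
      have h3 : ∀ i, (x : ℕ → ℂ) (i + N) * ((z - c) / r) ^ (i + N) =
          ((z - c) / r) ^ N * ((x : ℕ → ℂ) (i + N) * ((z - c) / r) ^ i) := fun i => by
        rw [pow_add]
        ring
      rw [h2, zero_add] at h1
      simp only [h3] at h1
      rw [tsum_mul_left] at h1
      exact (mul_eq_zero.1 h1).resolve_left (pow_ne_zero _ hw)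
    have h4 : ser c r (fun n => (x : ℕ → ℂ) (n + N)) c = (x : ℕ → ℂ) N := by
      unfold ser
      rw [tsum_eq_single 0]
      · simp
      · intro n hn
        simp [hn]
    have h5 : Tendsto (ser c r (fun n => (x : ℕ → ℂ) (n + N))) (𝓝[≠] c) (𝓝 ((x : ℕ → ℂ) N)) := by
      rw [← h4]
      exact hcont.tendsto.mono_left nhdsWithin_le_nhds
    have h6 : Tendsto (ser c r (fun n => (x : ℕ → ℂ) (n + N))) (𝓝[≠] c) (𝓝 0) := by
      refine tendsto_const_nhds.congr' ?_
      filter_upwards [self_mem_nhdsWithin, mem_nhdsWithin_of_mem_nhds (isOpen_ball.mem_nhds hcc)] with z h7 h8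
      exact (hz z h8 h7).symm
    exact tendsto_nhds_unique h5 h6
  refine lp.ext ?_
  funext n
  rw [key n]
  rfl

theorem tay_cof {c : ℂ} {r R M : ℝ} (hr : 0 < r) (hR : r < R) {ψ : ℂ → ℂ} (hψ : DifferentiableOn ℂ ψ (ball c R))
    (hM : ∀ z ∈ ball c R, ‖ψ z‖ ≤ M) :
    (∀ n, ‖cof c r ψ n‖ ≤ M * (r / R) ^ n) ∧ ∀ z ∈ ball c R, ser c r (cof c r ψ) z = ψ z := by
  have hR0 : 0 < R := hr.trans hR
  have hrc : (r : ℂ) ≠ 0 := by exact_mod_cast hr.ne'
  constructor
  · intro n
    have h1 : ∀ ρ, 0 < ρ → ρ < R → ‖cof c r ψ n‖ ≤ M * (r / ρ) ^ n := by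
      intro ρ hρ hρR
      have hsub : closedBall c ρ ⊆ ball c R := closedBall_subset_ball hρR
      have hd : DiffContOnCl ℂ ψ (ball c ρ) := (hψ.mono hsub).diffContOnCl_ball subset_rfl
      have h2 := Complex.norm_iteratedDeriv_le_of_forall_mem_sphere_norm_le n hρ hd
        (fun z hz => hM z (hsub (sphere_subset_closedBall hz)))
      have hfac : (0 : ℝ) < n.factorial := by exact_mod_cast n.factorial_pos
      unfold cof
      rw [norm_mul, norm_div, norm_pow, Complex.norm_real, Real.norm_of_nonneg hr.le]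
      have h3 : ‖((n.factorial : ℕ) : ℂ)‖ = n.factorial := by simp
      rw [h3]
      calc r ^ n * (‖iteratedDeriv n ψ c‖ / n.factorial)
          ≤ r ^ n * ((n.factorial * M / ρ ^ n) / n.factorial) := by gcongr
        _ = M * (r / ρ) ^ n := by
          rw [div_pow]
          field_simp
    have h4 : Tendsto (fun ρ : ℝ => M * (r / ρ) ^ n) (𝓝[<] R) (𝓝 (M * (r / R) ^ n)) := by
      have h5 : ContinuousAt (fun ρ : ℝ => M * (r / ρ) ^ n) R :=
        continuousAt_const.mul ((continuousAt_const.div continuousAt_id hR0.ne').pow n)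
      exact h5.tendsto.mono_left nhdsWithin_le_nhds
    refine ge_of_tendsto h4 ?_
    filter_upwards [self_mem_nhdsWithin, mem_nhdsWithin_of_mem_nhds (Ioi_mem_nhds hR0)] with ρ h6 h7
    exact h1 ρ h7 h6
  · intro z hz
    have h1 := Complex.taylorSeries_eq_on_ball' hz hψ
    rw [← h1]
    unfold ser cof
    refine tsum_congr fun n => ?_
    rw [div_pow]
    have h2 : (r : ℂ) ^ n ≠ 0 := pow_ne_zero _ hrc
    field_simp

end Pool.Agent.H1.RO
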