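import Pool.Agent.H1.RO.BanA
import Pool.Agent.H1.RO.BanB
import Pool.Agent.H1.RO.Tay

/-!
# Module Dic: decay or an eigenfunction of modulus one

STATEMENT. `L` maps functions which are holomorphic and bounded on `ball c r` to functions holomorphic and bounded on the larger `ball c R`, linearly, locally, and
power bounded. Then `‖L^[n + 1] φ‖ ≤ D θ^n M` on `ball c R` with `θ < 1`, or there is an eigenfunction `φ ≠ 0` with `|λ| = 1`.

PROOF. `C ≥ 0` without loss of generality (`C' = max C 0`). `X = ℓ¹ = lp (fun _ : ℕ => ℂ) 1`, a complex Banach space (type in `Type`). For `x : X` let `φ_x = ser c r x` (`tay_ser`). `ψ = L φ_x` is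
holomorphic on `ball c R` and bounded by `C ‖x‖` there. `T x` = the element of `ℓ¹` with coefficients `cof c r ψ`, `‖cof c r ψ n‖ ≤ C ‖x‖ (r/R)^n` (`tay_cof`), so
`‖T x‖ ≤ C ‖x‖ / (1 - r/R)`. `T` is linear: `cof` is (`iteratedDeriv` of sums of functions which are holomorphic near `c`; `hadd`, `hsmul` give the equality of the
functions on `ball c R`, a neighbourhood of `c`, and `Filter.EventuallyEq.iteratedDeriv_eq`); `ser c r (x + y) = ser c r x + ser c r y` on `ball c r`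
(absolute convergence) and `hloc`. `LinearMap.mkContinuous`. Compact: `ban_b` with `q = r / R`. (a) `ser c r (T x) = L φ_x` on `ball c r` (`tay_cof`). (b) By induction on `n`, using `hloc`:
`ser c r (T^n x) = L^[n] φ_x` on `ball c r`, and `L^[n + 1] φ_x = L (ser c r (T^n x))` on `ball c R`. (c) Power bounded: the coefficients of `T^(n+1) x` are `cof c r (L^[n + 1] φ_x)`
(equal functions near `c`: apply (a) to `T^n x`), and `‖L^[n+1] φ_x‖ ≤ C ‖x‖` (`hpow`), so `‖T^(n+1) x‖ ≤ C ‖x‖ / (1 - r/R)` by `tay_cof`. Now `ban_a`.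
First case `‖T^n‖ ≤ D θ^n`: let `φ` be holomorphic on `ball c r` and bounded by `M`. `ψ = L φ` is bounded by `C M` on `ball c R`, let `x ∈ ℓ¹` have the coefficients `cof c r ψ`,
`‖x‖ ≤ C M / (1 - r/R)`, `φ_x = ψ` on `ball c r` (`tay_cof`). `L^[n + 2] φ = L^[n + 1] ψ = L^[n+1] φ_x` on `ball c R` (`hloc`, induction), `= L (ser c r (T^n x))`, bounded by `C ‖T^n x‖ ≤ C D θ^n ‖x‖`.
For `L^[1] φ` use `hbd`. So the first case with another `D` (divide by `θ > 0`). Second case: `T x = μ x`, `x ≠ 0`: `φ = μ⁻¹ L φ_x` is holomorphic and bounded on `ball c R`; on `ball c r` `φ = μ⁻¹ ser c r (T x) = φ_x`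
(by (a) and linearity of `ser`), so `L φ = L φ_x = μ φ` on `ball c R`; `φ` is not identically `0` on `ball c r` by `tay_inj`.
-/

set_option autoImplicit false

open Metric Set Filter Topology

namespace Pool.Agent.H1.RO

private theorem summable_norm (x : lp (fun _ : ℕ => ℂ) 1) : Summable fun n => ‖(x : ℕ → ℂ) n‖ := by
  have h := (lp.memℓp x).summable (by simp)
  simpa using h

private theorem memlp_of_geo {a : ℕ → ℂ} {K q : ℝ} (hq : 0 ≤ q) (hq1 : q < 1)
    (h : ∀ n, ‖a n‖ ≤ K * q ^ n) : Memℓp a 1 := by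
  rw [memℓp_gen_iff (by simp)]
  have h1 : Summable fun n => K * q ^ n := (summable_geometric_of_lt_one hq hq1).mul_left K
  have h2 : Summable fun n => ‖a n‖ := Summable.of_nonneg_of_le (fun n => norm_nonneg _) h h1
  simpa using h2

private theorem norm_le_of_geo {x : lp (fun _ : ℕ => ℂ) 1} {K q : ℝ} (hq : 0 ≤ q) (hq1 : q < 1)
    (h : ∀ n, ‖(x : ℕ → ℂ) n‖ ≤ K * q ^ n) : ‖x‖ ≤ K / (1 - q) := by
  rw [lp.norm_eq_tsum_rpow (by simp)]
  simp only [ENNReal.toReal_one, Real.rpow_one, div_one]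
  have h1 : Summable fun n => K * q ^ n := (summable_geometric_of_lt_one hq hq1).mul_left K
  have h2 : Summable fun n => ‖(x : ℕ → ℂ) n‖ := Summable.of_nonneg_of_le (fun n => norm_nonneg _) h h1
  calc ∑' n, ‖(x : ℕ → ℂ) n‖ ≤ ∑' n, K * q ^ n := h2.tsum_le_tsum h h1
    _ = K / (1 - q) := by rw [tsum_mul_left, tsum_geometric_of_lt_one hq hq1]; ring

private theorem cof_congr {c : ℂ} {r R : ℝ} (hR : 0 < R) {f g : ℂ → ℂ}
    (h : ∀ z ∈ ball c R, f z = g z) (n : ℕ) : cof c r f n = cof c r g n := by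
  have h1 : f =ᶠ[nhds c] g := by
    filter_upwards [ball_mem_nhds c hR] with z hz using h z hz
  unfold cof
  rw [Filter.EventuallyEq.iteratedDeriv_eq n h1]

private theorem cda {c : ℂ} {R : ℝ} (hR : 0 < R) {f : ℂ → ℂ} (hf : DifferentiableOn ℂ f (ball c R))
    (n : ℕ) : ContDiffAt ℂ n f c :=
  (hf.analyticAt (ball_mem_nhds c hR)).contDiffAt

private theorem cof_add {c : ℂ} {r R : ℝ} (hR : 0 < R) {f g : ℂ → ℂ}
    (hf : DifferentiableOn ℂ f (ball c R)) (hg : DifferentiableOn ℂ g (ball c R)) (n : ℕ) :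
    cof c r (fun z => f z + g z) n = cof c r f n + cof c r g n := by
  unfold cof
  rw [iteratedDeriv_fun_add (cda hR hf n) (cda hR hg n)]
  ring

private theorem cof_smul {c : ℂ} {r R : ℝ} (hR : 0 < R) {f : ℂ → ℂ}
    (hf : DifferentiableOn ℂ f (ball c R)) (a : ℂ) (n : ℕ) :
    cof c r (fun z => a * f z) n = a * cof c r f n := by
  unfold cof
  rw [iteratedDeriv_const_mul a (cda hR hf n)]
  ring

private theorem ser_smul (c : ℂ) (r : ℝ) (a : ℂ) (x : lp (fun _ : ℕ => ℂ) 1) (z : ℂ) :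
    ser c r ((a • x : lp (fun _ : ℕ => ℂ) 1) : ℕ → ℂ) z = a * ser c r (x : ℕ → ℂ) z := by
  unfold ser
  rw [← tsum_mul_left]
  refine tsum_congr fun n => ?_
  rw [lp.coeFn_smul, Pi.smul_apply, smul_eq_mul]
  ring

private theorem ser_add {c : ℂ} {r : ℝ} (hr : 0 < r) (x y : lp (fun _ : ℕ => ℂ) 1) {z : ℂ}
    (hz : z ∈ ball c r) :
    ser c r ((x + y : lp (fun _ : ℕ => ℂ) 1) : ℕ → ℂ) z =
      ser c r (x : ℕ → ℂ) z + ser c r (y : ℕ → ℂ) z := by
  have hw : ‖(z - c) / (r : ℂ)‖ ≤ 1 := by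
    rw [norm_div, Complex.norm_real, Real.norm_of_nonneg hr.le, div_le_one hr]
    rw [mem_ball, dist_eq_norm] at hz
    exact hz.le
  have hs : ∀ u : lp (fun _ : ℕ => ℂ) 1, Summable fun n => (u : ℕ → ℂ) n * ((z - c) / r) ^ n := by
    intro u
    refine Summable.of_norm_bounded (summable_norm u) fun n => ?_
    rw [norm_mul, norm_pow]
    calc ‖(u : ℕ → ℂ) n‖ * ‖(z - c) / (r : ℂ)‖ ^ n ≤ ‖(u : ℕ → ℂ) n‖ * 1 :=
          mul_le_mul_of_nonneg_left (pow_le_one₀ (norm_nonneg _) hw) (norm_nonneg _)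
      _ = _ := mul_one _
  unfold ser
  rw [← (hs x).tsum_add (hs y)]
  refine tsum_congr fun n => ?_
  rw [lp.coeFn_add, Pi.add_apply]
  ring

theorem dich {c : ℂ} {r R C : ℝ} (hr : 0 < r) (hR : r < R) {L : (ℂ → ℂ) → ℂ → ℂ}
    (hadd : ∀ (φ ψ : ℂ → ℂ) (M : ℝ), DifferentiableOn ℂ φ (ball c r) → DifferentiableOn ℂ ψ (ball c r) →
      (∀ z ∈ ball c r, ‖φ z‖ ≤ M) → (∀ z ∈ ball c r, ‖ψ z‖ ≤ M) →
      ∀ z ∈ ball c R, L (fun z => φ z + ψ z) z = L φ z + L ψ z)
    (hsmul : ∀ (a : ℂ) (φ : ℂ → ℂ), ∀ z ∈ ball c R, L (fun z => a * φ z) z = a * L φ z)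
    (hloc : ∀ φ ψ : ℂ → ℂ, (∀ z ∈ ball c r, φ z = ψ z) → ∀ z ∈ ball c R, L φ z = L ψ z)
    (hbd : ∀ (φ : ℂ → ℂ) (M : ℝ), DifferentiableOn ℂ φ (ball c r) → (∀ z ∈ ball c r, ‖φ z‖ ≤ M) →
      DifferentiableOn ℂ (L φ) (ball c R) ∧ ∀ z ∈ ball c R, ‖L φ z‖ ≤ C * M)
    (hpow : ∀ (φ : ℂ → ℂ) (M : ℝ), DifferentiableOn ℂ φ (ball c r) → (∀ z ∈ ball c r, ‖φ z‖ ≤ M) →
      ∀ n : ℕ, ∀ z ∈ ball c R, ‖L^[n + 1] φ z‖ ≤ C * M) :
    (∃ θ D : ℝ, 0 < θ ∧ θ < 1 ∧ ∀ (φ : ℂ → ℂ) (M : ℝ), DifferentiableOn ℂ φ (ball c r) →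
      (∀ z ∈ ball c r, ‖φ z‖ ≤ M) → ∀ n : ℕ, ∀ z ∈ ball c R, ‖L^[n + 1] φ z‖ ≤ D * θ ^ n * M) ∨
    ∃ (μ : ℂ) (φ : ℂ → ℂ) (M : ℝ), ‖μ‖ = 1 ∧ DifferentiableOn ℂ φ (ball c R) ∧ (∀ z ∈ ball c R, ‖φ z‖ ≤ M) ∧
      (∃ z ∈ ball c r, φ z ≠ 0) ∧ ∀ z ∈ ball c R, L φ z = μ * φ z := by
  have hR0 : 0 < R := hr.trans hR
  have hsub : ball c r ⊆ ball c R := ball_subset_ball hR.le
  have hcr : c ∈ ball c r := mem_ball_self hr
  have hcR : c ∈ ball c R := mem_ball_self hR0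
  have hC0 : 0 ≤ C := by
    have h := (hbd (fun _ => 1) 1 (differentiableOn_const _) (fun z _ => by simp)).2 c hcR
    rw [mul_one] at h
    exact (norm_nonneg _).trans h
  set q : ℝ := r / R with hqd
  have hq : 0 ≤ q := by positivity
  have hq1 : q < 1 := (div_lt_one hR0).2 hR
  have h1q : 0 < 1 - q := by linarith
  -- the coefficients of `L φ_x`
  have hL : ∀ x : lp (fun _ : ℕ => ℂ) 1, DifferentiableOn ℂ (L (ser c r (x : ℕ → ℂ))) (ball c R) ∧
      ∀ z ∈ ball c R, ‖L (ser c r (x : ℕ → ℂ)) z‖ ≤ C * ‖x‖ := fun x =>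
    hbd _ _ (tay_ser hr x).1 (tay_ser hr x).2
  have hcf : ∀ x : lp (fun _ : ℕ => ℂ) 1, ∀ n,
      ‖cof c r (L (ser c r (x : ℕ → ℂ))) n‖ ≤ C * ‖x‖ * q ^ n := fun x =>
    (tay_cof hr hR (hL x).1 (hL x).2).1
  have hmem : ∀ x : lp (fun _ : ℕ => ℂ) 1, Memℓp (cof c r (L (ser c r (x : ℕ → ℂ)))) 1 := fun x =>
    memlp_of_geo hq hq1 (hcf x)
  let T0 : lp (fun _ : ℕ => ℂ) 1 →ₗ[ℂ] lp (fun _ : ℕ => ℂ) 1 :=
    { toFun := fun x => ⟨cof c r (L (ser c r (x : ℕ → ℂ))), hmem x⟩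
      map_add' := by
        intro x y
        apply lp.ext
        funext n
        show cof c r (L (ser c r ((x + y : lp (fun _ : ℕ => ℂ) 1) : ℕ → ℂ))) n =
          cof c r (L (ser c r (x : ℕ → ℂ))) n + cof c r (L (ser c r (y : ℕ → ℂ))) n
        rw [← cof_add hR0 (hL x).1 (hL y).1 n]
        refine cof_congr hR0 (fun z hz => ?_) n
        rw [hloc _ (fun z => ser c r (x : ℕ → ℂ) z + ser c r (y : ℕ → ℂ) z)
          (fun w hw => ser_add hr x y hw) z hz]
        exact hadd _ _ (‖x‖ + ‖y‖) (tay_ser hr x).1 (tay_ser hr y).1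
          (fun w hw => ((tay_ser hr x).2 w hw).trans (by have := norm_nonneg y; linarith))
          (fun w hw => ((tay_ser hr y).2 w hw).trans (by have := norm_nonneg x; linarith)) z hz
      map_smul' := by
        intro a x
        apply lp.ext
        funext n
        show cof c r (L (ser c r ((a • x : lp (fun _ : ℕ => ℂ) 1) : ℕ → ℂ))) n =
          a * cof c r (L (ser c r (x : ℕ → ℂ))) n
        rw [← cof_smul hR0 (hL x).1 a n]
        refine cof_congr hR0 (fun z hz => ?_) n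
        rw [hloc _ (fun z => a * ser c r (x : ℕ → ℂ) z) (fun w _ => ser_smul c r a x w) z hz]
        exact hsmul a _ z hz }
  have hT0 : ∀ x, ‖T0 x‖ ≤ C / (1 - q) * ‖x‖ := by
    intro x
    have h := norm_le_of_geo (x := T0 x) hq hq1 (hcf x)
    calc ‖T0 x‖ ≤ C * ‖x‖ / (1 - q) := h
      _ = _ := by ring
  let T : lp (fun _ : ℕ => ℂ) 1 →L[ℂ] lp (fun _ : ℕ => ℂ) 1 := T0.mkContinuous (C / (1 - q)) hT0
  have hTc : ∀ (x : lp (fun _ : ℕ => ℂ) 1) (n : ℕ),
      (T x : ℕ → ℂ) n = cof c r (L (ser c r (x : ℕ → ℂ))) n := fun x n => rfl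
  have hcomp : IsCompactOperator T := by
    refine ban_b T (C := C) hq hq1 fun x n => ?_
    rw [hTc]
    calc ‖cof c r (L (ser c r (x : ℕ → ℂ))) n‖ ≤ C * ‖x‖ * q ^ n := hcf x n
      _ = _ := by ring
  have hTa : ∀ x : lp (fun _ : ℕ => ℂ) 1, ∀ z ∈ ball c R,
      ser c r (T x : ℕ → ℂ) z = L (ser c r (x : ℕ → ℂ)) z := by
    intro x z hz
    exact (tay_cof hr hR (hL x).1 (hL x).2).2 z hz
  have hTb : ∀ (n : ℕ) (x : lp (fun _ : ℕ => ℂ) 1), ∀ z ∈ ball c r,
      ser c r ((T ^ n) x : ℕ → ℂ) z = L^[n] (ser c r (x : ℕ → ℂ)) z := by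
    intro n x
    induction n with
    | zero => intro z _; rfl
    | succ n ih =>
      intro z hz
      have e : (T ^ (n + 1)) x = T ((T ^ n) x) := by
        rw [pow_succ']
        rfl
      rw [e, hTa _ z (hsub hz), Function.iterate_succ_apply']
      exact hloc _ _ ih z (hsub hz)
  have hTb' : ∀ (n : ℕ) (x : lp (fun _ : ℕ => ℂ) 1), ∀ z ∈ ball c R,
      L (ser c r ((T ^ n) x : ℕ → ℂ)) z = L^[n + 1] (ser c r (x : ℕ → ℂ)) z := by
    intro n x z hz
    rw [Function.iterate_succ_apply']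
    exact hloc _ _ (hTb n x) z hz
  have hpb : ∀ n : ℕ, ‖T ^ n‖ ≤ 1 + C / (1 - q) := by
    have hCq : 0 ≤ C / (1 - q) := by positivity
    intro n
    cases n with
    | zero =>
      rw [pow_zero]
      refine (ContinuousLinearMap.norm_id_le).trans ?_
      linarith
    | succ n =>
      refine ContinuousLinearMap.opNorm_le_bound _ (by positivity) fun x => ?_
      have e : (T ^ (n + 1)) x = T ((T ^ n) x) := by
        rw [pow_succ']
        rfl
      rw [e]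
      have hb : ∀ z ∈ ball c R, ‖L (ser c r ((T ^ n) x : ℕ → ℂ)) z‖ ≤ C * ‖x‖ := by
        intro z hz
        rw [hTb' n x z hz]
        exact hpow _ _ (tay_ser hr x).1 (tay_ser hr x).2 n z hz
      have h := norm_le_of_geo (x := T ((T ^ n) x)) hq hq1
        (tay_cof hr hR (hL ((T ^ n) x)).1 hb).1
      calc ‖T ((T ^ n) x)‖ ≤ C * ‖x‖ / (1 - q) := h
        _ = C / (1 - q) * ‖x‖ := by ring
        _ ≤ (1 + C / (1 - q)) * ‖x‖ := by
          refine mul_le_mul_of_nonneg_right ?_ (norm_nonneg _)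
          linarith
  have hiter : ∀ φ ψ : ℂ → ℂ, (∀ z ∈ ball c r, φ z = ψ z) → ∀ n : ℕ, ∀ z ∈ ball c R,
      L^[n + 1] φ z = L^[n + 1] ψ z := by
    intro φ ψ h n
    induction n with
    | zero =>
      intro z hz
      exact hloc _ _ h z hz
    | succ n ih =>
      intro z hz
      rw [Function.iterate_succ_apply' L (n + 1), Function.iterate_succ_apply' L (n + 1)]
      exact hloc _ _ (fun w hw => ih w (hsub hw)) z hz
  rcases ban_a T hcomp hpb with ⟨θ, D, hθ0, hθ1, hD⟩ | ⟨μ, x, hμ, hx, hTx⟩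
  · left
    have hD0 : 0 ≤ D := by
      have h := hD 0
      rw [pow_zero, pow_zero, mul_one] at h
      exact (norm_nonneg _).trans h
    refine ⟨θ, C + C * D * (C / (1 - q)) / θ, hθ0, hθ1, ?_⟩
    intro φ M hφ hM n z hz
    have hM0 : 0 ≤ M := (norm_nonneg _).trans (hM c hcr)
    have hψ := hbd φ M hφ hM
    have hK0 : 0 ≤ C * D * (C / (1 - q)) / θ := by positivity
    cases n with
    | zero =>
      have h1 : ‖L^[0 + 1] φ z‖ ≤ C * M := hψ.2 z hz
      refine h1.trans ?_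
      rw [pow_zero, mul_one]
      refine mul_le_mul_of_nonneg_right ?_ hM0
      linarith
    | succ n =>
      have htc := tay_cof hr hR hψ.1 hψ.2
      have hxm : Memℓp (cof c r (L φ)) 1 := memlp_of_geo hq hq1 htc.1
      set x : lp (fun _ : ℕ => ℂ) 1 := ⟨cof c r (L φ), hxm⟩ with hxd
      have hxn : ‖x‖ ≤ C * M / (1 - q) := norm_le_of_geo (x := x) hq hq1 htc.1
      have h1 : L^[n + 1 + 1] φ z = L^[n + 1] (ser c r (x : ℕ → ℂ)) z := by
        rw [Function.iterate_succ_apply]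
        exact hiter _ _ (fun w hw => (htc.2 w (hsub hw)).symm) n z hz
      rw [h1, ← hTb' n x z hz]
      have h2 : ‖(T ^ n) x‖ ≤ D * θ ^ n * ‖x‖ :=
        (ContinuousLinearMap.le_opNorm _ _).trans
          (mul_le_mul_of_nonneg_right (hD n) (norm_nonneg _))
      calc ‖L (ser c r ((T ^ n) x : ℕ → ℂ)) z‖ ≤ C * ‖(T ^ n) x‖ := (hL _).2 z hz
        _ ≤ C * (D * θ ^ n * ‖x‖) := mul_le_mul_of_nonneg_left h2 hC0
        _ ≤ C * (D * θ ^ n * (C * M / (1 - q))) := by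
          refine mul_le_mul_of_nonneg_left ?_ hC0
          exact mul_le_mul_of_nonneg_left hxn (by positivity)
        _ = (C * D * (C / (1 - q)) / θ) * θ ^ (n + 1) * M := by
          rw [pow_succ]
          field_simp
        _ ≤ (C + C * D * (C / (1 - q)) / θ) * θ ^ (n + 1) * M := by
          refine mul_le_mul_of_nonneg_right ?_ hM0
          refine mul_le_mul_of_nonneg_right ?_ (by positivity)
          linarith
  · right
    have hμ0 : μ ≠ 0 := by
      intro h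
      rw [h, norm_zero] at hμ
      exact zero_ne_one hμ
    have hφ : ∀ z ∈ ball c r, μ⁻¹ * L (ser c r (x : ℕ → ℂ)) z = ser c r (x : ℕ → ℂ) z := by
      intro z hz
      rw [← hTa x z (hsub hz), hTx, ser_smul, ← mul_assoc, inv_mul_cancel₀ hμ0, one_mul]
    refine ⟨μ, fun z => μ⁻¹ * L (ser c r (x : ℕ → ℂ)) z, C * ‖x‖, hμ, (hL x).1.const_mul _, ?_, ?_, ?_⟩
    · intro z hz
      rw [norm_mul, norm_inv, hμ, inv_one, one_mul]
      exact (hL x).2 z hz
    · by_contra h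
      push Not at h
      refine hx (tay_inj (c := c) hr x fun z hz => ?_)
      rw [← hφ z hz]
      exact h z hz
    · intro z hz
      rw [hloc _ _ hφ z hz, ← mul_assoc, mul_inv_cancel₀ hμ0, one_mul]

end Pool.Agent.H1.RO
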