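import Pool.Agent.H1.RO.Ite
import Pool.Agent.H1.RO.Dic

/-!
# Module Dec: decay or an eigenfunction for a return system

PROOF. `dich` with `r = 2 s`, `R = 4 s`, `C = 4096 KK^2`, `L = LL g`: `bdd_add`, `bdd_smul`, `bdd_loc`, `bdd_dif`, `bdd_le`, `ite_le`. (`bdd_add` needs one `M` for both.)
-/

set_option autoImplicit false

open MeasureTheory Metric Set Filter Topology

namespace Pool.Agent.H1.RO

open Pool.Agent.H80.AJ

variable {ι : Type} {c : ℂ} {s : ℝ} {A : Set ℂ} {g : ι → ℂ → ℂ}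

theorem dec (h : RSys ι c s A g) :
    (∃ θ D : ℝ, 0 < θ ∧ θ < 1 ∧ ∀ (φ : ℂ → ℂ) (M : ℝ), DifferentiableOn ℂ φ (ball c (2 * s)) →
      (∀ z ∈ ball c (2 * s), ‖φ z‖ ≤ M) → ∀ n : ℕ, ∀ z ∈ ball c (4 * s), ‖(LL g)^[n + 1] φ z‖ ≤ D * θ ^ n * M) ∨
    ∃ (μ : ℂ) (φ : ℂ → ℂ) (M : ℝ), ‖μ‖ = 1 ∧ DifferentiableOn ℂ φ (ball c (4 * s)) ∧
      (∀ z ∈ ball c (4 * s), ‖φ z‖ ≤ M) ∧ (∃ z ∈ ball c (2 * s), φ z ≠ 0) ∧
      ∀ z ∈ ball c (4 * s), LL g φ z = μ * φ z := by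
  have hs := h.s0
  refine dich (L := LL g) (C := 4096 * KK ^ 2) (by linarith) (by linarith) ?_ ?_ ?_ ?_ ?_
  · intro φ ψ M _ _ hM hN z hz
    exact bdd_add h hM hN hz
  · intro a φ z _
    exact bdd_smul a z
  · intro φ ψ he z hz
    exact bdd_loc h he hz
  · intro φ M hφ hM
    exact ⟨bdd_dif h hφ hM, fun z hz => bdd_le h hM hz⟩
  · intro φ M _ hM n z hz
    exact ite_le h hM n hz

end Pool.Agent.H1.RO
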