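import Pool.Agent.H1.RO.Wor
import Pool.Agent.H1.RO.Bdd

/-!
# Module Ite: iterates of the return operator

STATEMENT. On `ball c (4 s)` the iterate `(LL g)^[n + 1] φ` is the return operator of the words of length `n + 1`; so it is bounded by
`4096 KK^2 M`, for all `n`.

PROOF. `ite_step`: for `y ∈ ball c (4 s)`: `LL g (LL (wm g n) φ) y = ∑ i, (g i)'(y)^2 ∑ w, (wm g n w)'(g i y)^2 φ (wm g n w (g i y))` and
`LL (wm g (n + 1)) φ y = ∑ w', ..`: the equivalence `ι × (Fin n → ι) ≃ (Fin (n + 1) → ι)`, `(i, w) ↦ Fin.cons i w` (`Fin.consEquiv` or `Fin.consEquiv`-like: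
`Equiv.piFinSucc n ι`), `wor_der` and `wm` (`rfl` after `Fin.cons_zero`, `Fin.cons_succ`). The double series is absolutely summable: `bdd_sum` for the return system
`wor_sys h n`, transported by the equivalence; then `Summable.tsum_prod`. (For `n = 0` `wm g 0` is the one element family of the identity: treat `n = 0` separately: `LL (wm g 0) φ = φ`,
`tsum_unique`-like over the type `Fin 0 → ι`, `deriv id = 1`; or state the step for `n + 1` and the case `LL g φ y = LL (wm g 1) φ y`, the equivalence `ι ≃ (Fin 1 → ι)`.)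
`ite_eq`: induction on `n` (for all `y ∈ ball c (4 s)`): `Function.iterate_succ_apply'`, and `bdd_loc`: the inner function is only needed on `ball c (2 s) ⊆ ball c (4 s)`.
`ite_le`: `bdd_le` for `wor_sys h n`.
-/

set_option autoImplicit false

open MeasureTheory Metric Set Filter Topology

namespace Pool.Agent.H1.RO

open Pool.Agent.H80.AJ

variable {ι : Type} {c : ℂ} {s : ℝ} {A : Set ℂ} {g : ι → ℂ → ℂ}

private theorem ite_zero (φ : ℂ → ℂ) (y : ℂ) : LL g φ y = LL (wm g 1) φ y := by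
  unfold LL
  rw [← (Equiv.funUnique (Fin 1) ι).tsum_eq (fun i => deriv (g i) y ^ 2 * φ (g i y))]
  rfl

private theorem ite_step (h : RSys ι c s A g) {φ : ℂ → ℂ} {M : ℝ}
    (hM : ∀ z ∈ ball c (2 * s), ‖φ z‖ ≤ M) (n : ℕ) {y : ℂ} (hy : y ∈ ball c (4 * s)) :
    LL g (LL (wm g (n + 1)) φ) y = LL (wm g (n + 2)) φ y := by
  have hy8 : y ∈ ball c (8 * s) := ball_subset_ball (by have := h.s0; linarith) hy
  have hsum := (bdd_sum (wor_sys h (n + 1)) hM hy).of_norm
  let e : ι × (Fin (n + 1) → ι) ≃ (Fin (n + 2) → ι) := Fin.consEquiv (fun _ => ι)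
  have hterm : ∀ (i : ι) (w : Fin (n + 1) → ι),
      deriv (wm g (n + 2) (e (i, w))) y ^ 2 * φ (wm g (n + 2) (e (i, w)) y) =
        deriv (g i) y ^ 2 * (deriv (wm g (n + 1) w) (g i y) ^ 2 * φ (wm g (n + 1) w (g i y))) := by
    intro i w
    have h1 : (e (i, w)) 0 = i := rfl
    have h2 : (fun k : Fin (n + 1) => (e (i, w)) k.succ) = w := rfl
    have h3 := wor_der h (n + 1) (e (i, w)) hy8
    rw [h1, h2] at h3
    have h4 : wm g (n + 2) (e (i, w)) y = wm g (n + 1) w (g i y) := rfl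
    rw [h3, h4]
    ring
  have h5 : LL (wm g (n + 2)) φ y =
      ∑' p : ι × (Fin (n + 1) → ι), deriv (wm g (n + 2) (e p)) y ^ 2 * φ (wm g (n + 2) (e p) y) :=
    (e.tsum_eq (fun w => deriv (wm g (n + 2) w) y ^ 2 * φ (wm g (n + 2) w y))).symm
  have h6 : Summable fun p : ι × (Fin (n + 1) → ι) =>
      deriv (wm g (n + 2) (e p)) y ^ 2 * φ (wm g (n + 2) (e p) y) :=
    (e.summable_iff (f := fun w => deriv (wm g (n + 2) w) y ^ 2 * φ (wm g (n + 2) w y))).2 hsum
  rw [h5, h6.tsum_prod]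
  show ∑' i, deriv (g i) y ^ 2 * LL (wm g (n + 1)) φ (g i y) = _
  refine tsum_congr fun i => ?_
  unfold LL
  rw [← tsum_mul_left]
  exact tsum_congr fun w => (hterm i w).symm

theorem ite_eq (h : RSys ι c s A g) {φ : ℂ → ℂ} {M : ℝ} (hM : ∀ z ∈ ball c (2 * s), ‖φ z‖ ≤ M) (n : ℕ) {y : ℂ}
    (hy : y ∈ ball c (4 * s)) : (LL g)^[n + 1] φ y = LL (wm g (n + 1)) φ y := by
  induction n generalizing y with
  | zero => exact ite_zero φ y
  | succ n ih =>
    rw [Function.iterate_succ_apply', ← ite_step h hM n hy]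
    refine bdd_loc h (fun z hz => ih ?_) hy
    exact ball_subset_ball (by have := h.s0; linarith) hz

theorem ite_le (h : RSys ι c s A g) {φ : ℂ → ℂ} {M : ℝ} (hM : ∀ z ∈ ball c (2 * s), ‖φ z‖ ≤ M) (n : ℕ) {y : ℂ}
    (hy : y ∈ ball c (4 * s)) : ‖(LL g)^[n + 1] φ y‖ ≤ 4096 * KK ^ 2 * M := by
  rw [ite_eq h hM n hy]
  exact bdd_le (wor_sys h n) hM hy

end Pool.Agent.H1.RO
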