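import Pool.Agent.H1.RO.AlgW

/-!
# Module Nob: no critical conjugacy

STATEMENT. The eigenfunction `φ` has no zero in `A`. Then there is no holomorphic `β` near `c` with `β'(c) = 0` which conjugates one word to another near some point of `A`.

PROOF. For `x'` near `x`: `z = G1 x'`, `G1 = wm g n1 w1`, `G2 = wm g n2 w2`, `β (G1 x') = G2 x'`, so `β'(z) G1'(x') = G2'(x')` (derivatives at the interior point `x'`; `β` is differentiable at `z ∈ ball c ε`). `alg_wm` for `G1`, `G2` at `x'`: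
`G1'^2 φ(z) = ρ1 μ^n1 φ(x')`, `G1'^2 β'(z)^2 φ(β z) = ρ2 μ^n2 φ(x')`. Hence `ρ1 μ^n1 β'(z)^2 φ(β z) = ρ2 μ^n2 φ(z)` (cancel `G1'(x')^2 ≠ 0`). This holds for all `z` in the image of a
neighbourhood of `x` under `G1`, which is a neighbourhood of `G1 x` (open mapping, or `HasStrictDerivAt.map_nhds_eq`), and both sides are analytic on the connected `ball c ε`: it holds at `z = c`: `0 = ρ2 μ^n2 φ(c)`, but `c ∈ A`
(`bA`), contradiction with `hz`. (`β` maps `ball c ε` into `ball c (4 s)`, where `φ` is holomorphic; `ball c ε ⊆ ball c (4 s)`.)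
-/

set_option autoImplicit false

open MeasureTheory Metric Set Filter Topology

namespace Pool.Agent.H1.RO

variable {ι : Type} {c : ℂ} {s : ℝ} {A : Set ℂ} {g : ι → ℂ → ℂ}

private theorem wm_dif (h : RSys ι c s A g) (n : ℕ) (w : Fin n → ι) :
    DifferentiableOn ℂ (wm g n w) (ball c (8 * s)) := by
  cases n with
  | zero => exact differentiableOn_id
  | succ n => exact (wor_sys h n).dif w

private theorem wm_inj (h : RSys ι c s A g) (n : ℕ) (w : Fin n → ι) :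
    InjOn (wm g n w) (ball c (8 * s)) := by
  cases n with
  | zero => exact fun x _ y _ hxy => hxy
  | succ n => exact (wor_sys h n).inj w

theorem nob [Countable ι] (h : RSys ι c s A g) {μ : ℂ} {φ : ℂ → ℂ} {M : ℝ} (hμ : ‖μ‖ = 1)
    (hφ : DifferentiableOn ℂ φ (ball c (4 * s))) (hM : ∀ z ∈ ball c (4 * s), ‖φ z‖ ≤ M)
    (hne : ∃ z ∈ ball c (2 * s), φ z ≠ 0) (he : ∀ z ∈ ball c (4 * s), LL g φ z = μ * φ z)
    (hz : ∀ z ∈ A, φ z ≠ 0) {ε : ℝ} (hε : 0 < ε) (hεs : ε ≤ s) {β : ℂ → ℂ} (hβ : DifferentiableOn ℂ β (ball c ε))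
    (hβm : MapsTo β (ball c ε) (ball c (4 * s))) (hβ0 : deriv β c = 0) {n1 n2 : ℕ} {w1 : Fin n1 → ι}
    {w2 : Fin n2 → ι} {x : ℂ} (hx : x ∈ A)
    (hc : ∀ᶠ x' in 𝓝 x, wm g n1 w1 x' ∈ ball c ε ∧ β (wm g n1 w1 x') = wm g n2 w2 x') : False := by
  have hs := h.s0
  have hA8 : ∀ z ∈ A, z ∈ ball c (8 * s) := fun z hz => ball_subset_ball (by linarith) (h.As hz)
  have hA4 : ∀ z ∈ A, z ∈ closedBall c (8 * s / 2) := fun z hz =>
    ball_subset_closedBall (ball_subset_ball (by linarith) (h.As hz))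
  obtain ⟨ρ1, hρ1, h1⟩ := alg_wm h hμ hφ hM hne he n1 w1
  obtain ⟨ρ2, hρ2, h2⟩ := alg_wm h hμ hφ hM hne he n2 w2
  obtain ⟨P, hP⟩ : ∃ P : ℂ → ℂ, ∀ z, P z = ρ1 * μ ^ n1 * (deriv β z ^ 2 * φ (β z)) -
    ρ2 * μ ^ n2 * φ z := ⟨_, fun _ => rfl⟩
  have hμ0 : μ ≠ 0 := by
    rintro rfl
    rw [norm_zero] at hμ
    exact zero_ne_one hμ
  -- the functional equation at the points `G1 x'`
  have key : ∀ᶠ x' in 𝓝 x, P (wm g n1 w1 x') = 0 := by
    have h3 := hc.eventually_nhds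
    filter_upwards [h3, h.Ao.mem_nhds hx] with x' h4 h5
    have h6 := h4.self_of_nhds
    have hd1 : DifferentiableAt ℂ (wm g n1 w1) x' :=
      (wm_dif h n1 w1).differentiableAt (isOpen_ball.mem_nhds (hA8 x' h5))
    have hdβ : DifferentiableAt ℂ β (wm g n1 w1 x') := hβ.differentiableAt (isOpen_ball.mem_nhds h6.1)
    have h7 : HasDerivAt (fun y => β (wm g n1 w1 y)) (deriv β (wm g n1 w1 x') * deriv (wm g n1 w1) x') x' :=
      hdβ.hasDerivAt.comp x' hd1.hasDerivAt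
    have h8 : deriv (wm g n2 w2) x' = deriv β (wm g n1 w1 x') * deriv (wm g n1 w1) x' := by
      rw [← h7.deriv]
      refine Filter.EventuallyEq.deriv_eq ?_
      filter_upwards [h4] with y hy
      exact hy.2.symm
    have h9 : deriv (wm g n1 w1) x' ≠ 0 := by
      have := Pool.Agent.H80.AJ.deriv_ne (by linarith : (0 : ℝ) < 8 * s) (wm_dif h n1 w1) (wm_inj h n1 w1)
        (hA4 x' h5)
      exact norm_pos_iff.1 this
    have e1 := h1 x' h5
    have e2 := h2 x' h5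
    rw [h8, ← h6.2] at e2
    rw [hP]
    have h10 : deriv (wm g n1 w1) x' ^ 2 * (ρ1 * μ ^ n1 * (deriv β (wm g n1 w1 x') ^ 2 *
        φ (β (wm g n1 w1 x'))) - ρ2 * μ ^ n2 * φ (wm g n1 w1 x')) = 0 := by
      linear_combination (ρ1 : ℂ) * μ ^ n1 * e2 - (ρ2 : ℂ) * μ ^ n2 * e1
    exact (mul_eq_zero.1 h10).resolve_left (pow_ne_zero _ h9)
  -- `P` is analytic
  have hsub : ball c ε ⊆ ball c (4 * s) := ball_subset_ball (by linarith)
  have hPd : DifferentiableOn ℂ P (ball c ε) := by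
    have h3 : P = fun z => ρ1 * μ ^ n1 * (deriv β z ^ 2 * φ (β z)) - ρ2 * μ ^ n2 * φ z := funext hP
    rw [h3]
    have h4 : DifferentiableOn ℂ (deriv β) (ball c ε) := hβ.deriv isOpen_ball
    have h5 : DifferentiableOn ℂ (fun z => φ (β z)) (ball c ε) := hφ.comp hβ hβm
    exact (((h4.pow 2).mul h5).const_mul _).sub ((hφ.mono hsub).const_mul _)
  have hPa : AnalyticOnNhd ℂ P (ball c ε) := hPd.analyticOnNhd isOpen_ball
  have hxG : wm g n1 w1 x ∈ ball c ε := hc.self_of_nhds.1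
  have hmap : Filter.map (wm g n1 w1) (𝓝 x) = 𝓝 (wm g n1 w1 x) := by
    have h3 : AnalyticAt ℂ (wm g n1 w1) x :=
      (wm_dif h n1 w1).analyticAt (isOpen_ball.mem_nhds (hA8 x hx))
    have h9 : deriv (wm g n1 w1) x ≠ 0 := by
      have := Pool.Agent.H80.AJ.deriv_ne (by linarith : (0 : ℝ) < 8 * s) (wm_dif h n1 w1) (wm_inj h n1 w1)
        (hA4 x hx)
      exact norm_pos_iff.1 this
    exact h3.hasStrictDerivAt.map_nhds_eq h9
  have hev : P =ᶠ[𝓝 (wm g n1 w1 x)] 0 := by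
    rw [← hmap]
    exact key
  have hzero := hPa.eqOn_zero_of_preconnected_of_eventuallyEq_zero
    (convex_ball c ε).isPreconnected hxG hev
  have h3 := hzero (mem_ball_self hε)
  rw [hP, hβ0] at h3
  have hcA : c ∈ A := h.bA (mem_ball_self (by linarith))
  have h4 : (ρ2 : ℂ) * μ ^ n2 * φ c = 0 := by
    have h5 : (ρ1 : ℂ) * μ ^ n1 * (0 ^ 2 * φ (β c)) - ρ2 * μ ^ n2 * φ c = 0 := h3
    linear_combination -h5
  have h5 : (ρ2 : ℂ) ≠ 0 := by exact_mod_cast hρ2.ne'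
  exact hz c hcA ((mul_eq_zero.1 h4).resolve_left (mul_ne_zero h5 (pow_ne_zero _ hμ0)))

end Pool.Agent.H1.RO
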