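import Pool.Agent.H1.RO.AlgW

/-!
# Module Zer: the eigenfunction has no zeros

`zer`: if for every `z ∈ A` the points `wm g n w z`, `n ≥ 1`, different from `c`, accumulate at `c`, then the eigenfunction has no zero in `A`.

PROOF of `zer`. If `φ z = 0`, `z ∈ A`, then by `alg_wm` (`μ ≠ 0`, `deriv (wm g n w) z ≠ 0` because `wm g n w` is injective near `z`: `wor_sys`; for holomorphic injective functions the derivative is not `0`, e.g. `Pool.Agent.H80.AJ` or
the library lemma used in H79/ES/GIV) `φ (wm g n w z) = 0`. These zeros accumulate at `c ∈ ball c (4 s)`, where `φ` is analytic: `φ = 0` near `c` (`AnalyticAt.eventually_eq_zero_or_eventually_ne_zero`), so `φ = 0` on `ball c (4 s)` by the identity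
theorem, against `hne`.
-/

set_option autoImplicit false

open MeasureTheory Metric Set Filter Topology

namespace Pool.Agent.H1.RO

open Pool.Agent.H80.AJ

variable {ι : Type} {c : ℂ} {s : ℝ} {A : Set ℂ} {g : ι → ℂ → ℂ}

theorem zer [Countable ι] (h : RSys ι c s A g) {μ : ℂ} {φ : ℂ → ℂ} {M : ℝ} (hμ : ‖μ‖ = 1)
    (hφ : DifferentiableOn ℂ φ (ball c (4 * s))) (hM : ∀ z ∈ ball c (4 * s), ‖φ z‖ ≤ M)
    (hne : ∃ z ∈ ball c (2 * s), φ z ≠ 0) (he : ∀ z ∈ ball c (4 * s), LL g φ z = μ * φ z)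
    (hacc : ∀ z ∈ A, ∀ ε : ℝ, 0 < ε → ∃ (n : ℕ) (w : Fin (n + 1) → ι), wm g (n + 1) w z ∈ ball c ε ∧
      wm g (n + 1) w z ≠ c) : ∀ z ∈ A, φ z ≠ 0 := by
  have hs := h.s0
  intro z hz hφz
  have hc4 : c ∈ ball c (4 * s) := mem_ball_self (by positivity)
  have han : AnalyticOnNhd ℂ φ (ball c (4 * s)) := hφ.analyticOnNhd isOpen_ball
  have hfr : ∃ᶠ u in 𝓝[≠] c, φ u = 0 := by
    rw [frequently_nhdsWithin_iff, Metric.nhds_basis_ball.frequently_iff]
    intro ε hε
    obtain ⟨n, w, h1, h2⟩ := hacc z hz ε hε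
    obtain ⟨ρ, -, h3⟩ := alg_wm h hμ hφ hM hne he (n + 1) w
    have h4 := h3 z hz
    rw [hφz, mul_zero] at h4
    have h5 : deriv (wm g (n + 1) w) z ≠ 0 := by
      have hw := wor_sys h n
      refine norm_pos_iff.1 (deriv_ne (R := 8 * s) (by positivity) (hw.dif w) (hw.inj w) ?_)
      rw [mem_closedBall]
      have := mem_ball.1 (h.As hz)
      linarith
    exact ⟨wm g (n + 1) w z, h1, (mul_eq_zero.1 h4).resolve_left (pow_ne_zero 2 h5), h2⟩
  have h6 := han.eqOn_zero_of_preconnected_of_frequently_eq_zero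
    (convex_ball c (4 * s)).isPreconnected hc4 hfr
  obtain ⟨u, hu, hu0⟩ := hne
  exact hu0 (h6 (ball_subset_ball (by linarith) hu))

end Pool.Agent.H1.RO
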